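import Pool.Agent.GT34.Defs

set_option autoImplicit false

/-!
# GT34/Link: `W` counts linear extensions by descents
-/

open Polynomial

namespace Pool.GT34

variable {V : Type} [PartialOrder V]

open Classical in
/-- Linear extensions of `S` as lists, with fuel `n`. -/
noncomputable def LE : ℕ → Finset V → Finset (List V)
  | 0, _ => {[]}
  | n + 1, S => (mins S).biUnion (fun y => (LE n (del S y)).image (List.cons y))

open Classical in
/-- Descents of a list with `x` in front. -/
noncomputable def desL (D : V → V → Prop) : V → List V → ℕ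
  | _, [] => 0
  | x, y :: l => (if D x y then 1 else 0) + desL D y l

/-- Descents of a list. -/
noncomputable def desH (D : V → V → Prop) : List V → ℕ
  | [] => 0
  | y :: l => desL D y l

lemma Gf_eq_sum (D : V → V → Prop) :
    ∀ (n : ℕ) (x : V) (S : Finset V), Gf D n x S = ∑ l ∈ LE n S, X ^ desL D x l := by
  classical
  intro n
  induction n with
  | zero => intro x S; simp [Gf, LE, desL]
  | succ n ih =>
    intro x S
    rw [Gf, LE, Finset.sum_biUnion]
    · refine Finset.sum_congr rfl fun y _ => ?_
      rw [Finset.sum_image (fun a _ b _ h => List.cons_injective h), ih, Finset.mul_sum]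
      refine Finset.sum_congr rfl fun l _ => ?_
      rw [desL, st, pow_add]
      congr 1
      split_ifs <;> simp
    · intro y1 _ y2 _ hne
      rw [Function.onFun, Finset.disjoint_left]
      intro l h1 h2
      rw [Finset.mem_image] at h1 h2
      obtain ⟨l1, -, rfl⟩ := h1
      obtain ⟨l2, -, h3⟩ := h2
      exact hne (List.cons.inj h3).1.symm

lemma mem_LE : ∀ (n : ℕ) (S : Finset V), S.card = n → ∀ l : List V,
    l ∈ LE n S ↔ l.Nodup ∧ (∀ z, z ∈ l ↔ z ∈ S) ∧ l.Pairwise (fun a b => ¬ b < a) := by
  classical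
  intro n
  induction n with
  | zero =>
    intro S hS l
    rw [Finset.card_eq_zero] at hS
    subst hS
    simp only [LE, Finset.mem_singleton]
    constructor
    · rintro rfl
      simp
    · rintro ⟨-, h, -⟩
      rcases l with _ | ⟨a, l⟩
      · rfl
      · have := (h a).1 (by simp)
        simp at this
  | succ n ih =>
    intro S hS l
    simp only [LE, Finset.mem_biUnion, Finset.mem_image]
    constructor
    · rintro ⟨y, hy, l', hl', rfl⟩
      rw [mem_mins] at hy
      have hc := card_del hy.1
      rw [ih (del S y) (by omega)] at hl'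
      obtain ⟨h1, h2, h3⟩ := hl'
      refine ⟨?_, fun z => ?_, ?_⟩
      · rw [List.nodup_cons]
        exact ⟨fun h => (mem_del.1 ((h2 y).1 h)).1 rfl, h1⟩
      · rw [List.mem_cons, h2, mem_del]
        constructor
        · rintro (rfl | h)
          · exact hy.1
          · exact h.2
        · intro h
          by_cases hz : z = y
          · exact Or.inl hz
          · exact Or.inr ⟨hz, h⟩
      · rw [List.pairwise_cons]
        exact ⟨fun b hb => hy.2 b (mem_del.1 ((h2 b).1 hb)).2, h3⟩
    · rintro ⟨h1, h2, h3⟩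
      rcases l with _ | ⟨y, l'⟩
      · have hne : S.Nonempty := Finset.card_pos.1 (by omega)
        obtain ⟨z, hz⟩ := hne
        have := (h2 z).2 hz
        simp at this
      · rw [List.nodup_cons] at h1
        rw [List.pairwise_cons] at h3
        have hyS : y ∈ S := (h2 y).1 (by simp)
        have hc := card_del hyS
        refine ⟨y, mem_mins.2 ⟨hyS, fun z hz hlt => ?_⟩, l', ?_, rfl⟩
        · rcases List.mem_cons.1 ((h2 z).2 hz) with rfl | h
          · exact lt_irrefl _ hlt
          · exact h3.1 z h hlt
        · rw [ih (del S y) (by omega)]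
          refine ⟨h1.2, fun z => ?_, h3.2⟩
          rw [mem_del]
          constructor
          · intro h
            exact ⟨fun h' => h1.1 (h' ▸ h), (h2 z).1 (List.mem_cons_of_mem _ h)⟩
          · rintro ⟨h4, h5⟩
            rcases List.mem_cons.1 ((h2 z).2 h5) with h6 | h6
            · exact absurd h6 h4
            · exact h6

lemma W_eq_sum (D : V → V → Prop) {S : Finset V} (hS : S.Nonempty) :
    W D S = ∑ l ∈ LE S.card S, X ^ desH D l := by
  classical
  have h1 : S.card = (S.card - 1) + 1 := by
    have := hS.card_pos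
    omega
  rw [h1, LE, Finset.sum_biUnion]
  · unfold W G
    refine Finset.sum_congr rfl fun y hy => ?_
    have hc := card_del (mem_mins.1 hy).1
    rw [Finset.sum_image (fun a _ b _ h => List.cons_injective h), Gf_eq_sum,
      show (del S y).card = S.card - 1 by omega]
    rfl
  · intro y1 _ y2 _ hne
    rw [Function.onFun, Finset.disjoint_left]
    intro l h1 h2
    rw [Finset.mem_image] at h1 h2
    obtain ⟨l1, -, rfl⟩ := h1
    obtain ⟨l2, -, h3⟩ := h2
    exact hne (List.cons.inj h3).1.symm

open Classical in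
lemma coeff_W (D : V → V → Prop) {S : Finset V} (hS : S.Nonempty) (k : ℕ) :
    (W D S).coeff k = ((LE S.card S).filter (fun l => desH D l = k)).card := by
  rw [W_eq_sum D hS, finsetSum_coeff, Finset.card_filter]
  refine Finset.sum_congr rfl fun l _ => ?_
  rw [coeff_X_pow]
  by_cases h : desH D l = k
  · rw [if_pos h, if_pos h.symm]
  · rw [if_neg h, if_neg (Ne.symm h)]

omit [PartialOrder V] in
open Classical in
lemma desL_ofFn (D : V → V → Prop) : ∀ (m : ℕ) (g : Fin (m + 1) → V),
    desL D (g 0) (List.ofFn (fun i : Fin m => g i.succ)) =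
      ∑ i : Fin m, if D (g i.castSucc) (g i.succ) then 1 else 0 := by
  intro m
  induction m with
  | zero => intro g; simp [desL]
  | succ m ih =>
    intro g
    rw [List.ofFn_succ, desL, Fin.sum_univ_succ]
    congr 1
    exact ih (fun i => g i.succ)

omit [PartialOrder V] in
lemma desH_ofFn (D : V → V → Prop) : ∀ (n : ℕ) (g : Fin n → V),
    Nat.card {i : Fin n // ∃ h : i.val + 1 < n, D (g i) (g ⟨i.val + 1, h⟩)} =
      desH D (List.ofFn g) := by
  classical
  intro n g
  rcases n with _ | m
  · rw [List.ofFn_zero, desH]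
    have : IsEmpty {i : Fin 0 // ∃ h : i.val + 1 < 0, D (g i) (g ⟨i.val + 1, h⟩)} :=
      ⟨fun i => i.1.elim0⟩
    exact Nat.card_of_isEmpty
  · rw [List.ofFn_succ, desH, desL_ofFn D m g, ← Finset.card_filter,
      ← Nat.card_eq_finsetCard]
    refine Nat.card_congr ?_
    refine
      { toFun := fun i => ⟨⟨i.1.val, by obtain ⟨h, -⟩ := i.2; omega⟩, ?_⟩
        invFun := fun j => ⟨j.1.castSucc, ?_⟩
        left_inv := ?_
        right_inv := ?_ }
    · obtain ⟨i, h, hd⟩ := i
      simp only [Finset.mem_filter, Finset.mem_univ, true_and]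
      exact hd
    · obtain ⟨j, hj⟩ := j
      simp only [Finset.mem_filter, Finset.mem_univ, true_and] at hj
      exact ⟨by simp, hj⟩
    · rintro ⟨i, h⟩
      rfl
    · rintro ⟨j, hj⟩
      rfl

/-- The frozen form of the numbers `w k`. -/
theorem link {α : Type} [Fintype α] [PartialOrder α] [Nonempty α]
    (f : α ≃ Fin (Fintype.card α)) (k : ℕ) :
    Nat.card {σ : Fin (Fintype.card α) ≃ α //
            (∀ i j : Fin (Fintype.card α), σ i < σ j → i < j) ∧
            Nat.card {i : Fin (Fintype.card α) //
              ∃ h : i.val + 1 < Fintype.card α,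
                f (σ ⟨i.val + 1, h⟩) < f (σ i)} = k} =
      (W (Dl (fun x => ((f x : ℕ) : ℤ))) (Finset.univ : Finset α)).coeff k := by
  classical
  have hD : ∀ a b : α, Dl (fun x => ((f x : ℕ) : ℤ)) a b ↔ f b < f a := by
    intro a b
    change ((f b : ℕ) : ℤ) < ((f a : ℕ) : ℤ) ↔ _
    rw [Nat.cast_lt, Fin.lt_def]
  rw [coeff_W _ Finset.univ_nonempty, ← Nat.card_eq_finsetCard]
  have hdes : ∀ σ : Fin (Fintype.card α) → α,
      Nat.card {i : Fin (Fintype.card α) //
              ∃ h : i.val + 1 < Fintype.card α, f (σ ⟨i.val + 1, h⟩) < f (σ i)} =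
      desH (Dl (fun x => ((f x : ℕ) : ℤ))) (List.ofFn σ) := by
    intro σ
    rw [← desH_ofFn]
    refine Nat.card_congr (Equiv.subtypeEquivRight fun i => ?_)
    simp only [hD]
  refine Nat.card_eq_of_bijective
    (fun σ => ⟨List.ofFn σ.1, ?_⟩) ⟨?_, ?_⟩
  · obtain ⟨σ, h1, h2⟩ := σ
    rw [Finset.mem_filter, mem_LE _ _ rfl]
    refine ⟨⟨List.nodup_ofFn.2 σ.injective, fun z => ?_, ?_⟩, ?_⟩
    · simp only [Finset.mem_univ, iff_true, List.mem_ofFn]
      exact ⟨σ.symm z, by simp⟩
    · rw [List.pairwise_ofFn]
      intro i j hij hlt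
      exact absurd (h1 j i hlt) (not_lt.2 hij.le)
    · rw [← hdes]
      exact h2
  · rintro ⟨σ, hσ⟩ ⟨τ, hτ⟩ h
    simp only [Subtype.mk.injEq] at h ⊢
    exact DFunLike.coe_injective (List.ofFn_injective h)
  · rintro ⟨l, hl⟩
    rw [Finset.mem_filter, mem_LE _ _ rfl] at hl
    obtain ⟨⟨h1, h2, h3⟩, h4⟩ := hl
    have hmem : ∀ z : α, z ∈ l := fun z => (h2 z).2 (Finset.mem_univ z)
    have hlen : l.length = Fintype.card α := by
      rw [← Finset.card_univ, ← List.toFinset_card_of_nodup h1]
      congr 1
      ext z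
      simp [hmem z]
    let e : Fin l.length ≃ α := List.Nodup.getEquivOfForallMemList l h1 hmem
    let σ : Fin (Fintype.card α) ≃ α := (finCongr hlen.symm).trans e
    have hofFn : List.ofFn σ = l := by
      apply List.ext_getElem
      · rw [List.length_ofFn, hlen]
      · intro i hi hi'
        rw [List.getElem_ofFn]
        rfl
    refine ⟨⟨σ, ?_, ?_⟩, ?_⟩
    · intro i j hij
      by_contra hlt
      rcases (not_lt.1 hlt).eq_or_lt with h5 | h5
      · subst h5; exact lt_irrefl _ hij
      · have h6 : (List.ofFn σ).Pairwise (fun a b => ¬ b < a) := by rw [hofFn]; exact h3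
        rw [List.pairwise_ofFn] at h6
        exact h6 h5 hij
    · rw [hdes, hofFn]
      exact h4
    · simp only [Subtype.mk.injEq]
      exact hofFn

end Pool.GT34
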