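import Pool.Agent.GT34.Iso
import Pool.Agent.GT34.Link

set_option autoImplicit false

/-!
# GT34/Final: the gauge theorem for the numbers `w k`
-/

open Polynomial

namespace Pool.GT34

/-- The number of linear extensions with `k` descents, in the form of the problem. -/
noncomputable def wnum (α : Type) [Fintype α] [PartialOrder α] (f : α ≃ Fin (Fintype.card α))
    (k : ℕ) : ℕ :=
  Nat.card {σ : Fin (Fintype.card α) ≃ α //
            (∀ i j : Fin (Fintype.card α), σ i < σ j → i < j) ∧
            Nat.card {i : Fin (Fintype.card α) //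
              ∃ h : i.val + 1 < Fintype.card α,
                f (σ ⟨i.val + 1, h⟩) < f (σ i)} = k}

lemma wnum_succ_of_isEmpty (α : Type) [Fintype α] [PartialOrder α]
    (f : α ≃ Fin (Fintype.card α)) (h : IsEmpty α) (k : ℕ) : wnum α f (k + 1) = 0 := by
  unfold wnum
  have hc : Fintype.card α = 0 := Fintype.card_eq_zero
  have : IsEmpty {σ : Fin (Fintype.card α) ≃ α //
            (∀ i j : Fin (Fintype.card α), σ i < σ j → i < j) ∧
            Nat.card {i : Fin (Fintype.card α) //
              ∃ h : i.val + 1 < Fintype.card α,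
                f (σ ⟨i.val + 1, h⟩) < f (σ i)} = k + 1} := by
    constructor
    rintro ⟨σ, -, h2⟩
    have : IsEmpty {i : Fin (Fintype.card α) //
              ∃ h : i.val + 1 < Fintype.card α,
                f (σ ⟨i.val + 1, h⟩) < f (σ i)} := by
      constructor
      rintro ⟨i, hi, -⟩
      omega
    rw [Nat.card_of_isEmpty] at h2
    omega
  exact Nat.card_of_isEmpty

theorem first_half (α : Type) [Fintype α] [PartialOrder α] (f : α ≃ Fin (Fintype.card α))
    (hf : ∀ x y : α, x < y → f x < f y) (κ : α → ℕ) (T : ℕ) (hκ : GaugeI' κ T) [Nonempty α] :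
    W (Dl (fun x => ((f x : ℕ) : ℤ))) (Finset.univ : Finset α) ∈
      Up ((Fintype.card α : ℤ) - 1 - T) := by
  refine main_I' _ α rfl _ (fun x y h => ?_) (fun x y h => ?_) κ T hκ
  · exact f.injective (Fin.ext (Nat.cast_injective h))
  · exact Nat.cast_lt.2 (Fin.lt_def.1 (hf x y h))

theorem second_half (α : Type) [Fintype α] [PartialOrder α] (f : α ≃ Fin (Fintype.card α))
    (hf : ∀ x y : α, x < y → f x < f y) (κ : α → ℕ) (T : ℕ) (hκ : GaugeD κ T) [Nonempty α] :
    W (Dl (fun x => ((f x : ℕ) : ℤ))) (Finset.univ : Finset α) ∈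
      Lo ((Fintype.card α : ℤ) + 1 - T) := by
  refine main_D _ (fun x y h => ?_) (fun x y h => ?_) hκ
  · exact f.injective (Fin.ext (Nat.cast_injective h))
  · exact Nat.cast_lt.2 (Fin.lt_def.1 (hf x y h))

theorem gauge_theorem (α : Type) [Fintype α] [PartialOrder α] (f : α ≃ Fin (Fintype.card α))
    (hf : ∀ x y : α, x < y → f x < f y) (κ μ : α → ℕ) (T T' : ℕ) (hκ : GaugeI' κ T)
    (hμ : GaugeD μ T') (hT : T ≤ T' + 1 ∨ (T = T' + 2 ∧ Even (Fintype.card α + T))) :
    ∃ m : ℕ, ∀ k : ℕ, (k < m → wnum α f k ≤ wnum α f (k + 1)) ∧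
      (m ≤ k → wnum α f (k + 1) ≤ wnum α f k) := by
  rcases isEmpty_or_nonempty α with h | h
  · refine ⟨0, fun k => ⟨fun hk => by omega, fun _ => ?_⟩⟩
    rw [wnum_succ_of_isEmpty α f h]
    exact Nat.zero_le _
  · have h1 := first_half α f hf κ T hκ
    have h2 := second_half α f hf μ T' hμ
    have h3 := unimodal_of_cones h1 h2 (by
      rcases hT with hT | ⟨hT, r, hr⟩
      · left; omega
      · right
        refine ⟨by omega, ⟨(r : ℤ) - 1 - T, ?_⟩⟩
        omega)
    obtain ⟨m, hm⟩ := h3
    refine ⟨m, fun k => ?_⟩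
    have e : ∀ k, wnum α f k =
        (W (Dl (fun x => ((f x : ℕ) : ℤ))) (Finset.univ : Finset α)).coeff k :=
      fun k => link f k
    rw [e, e]
    exact hm k

end Pool.GT34
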