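import Pool.Agent.GT34.Uniq

set_option autoImplicit false

/-!
# GT34/Fund: counting `(P, ω)`-partitions by linear extensions
-/

open Polynomial

namespace Pool.GT34

variable {V : Type} [Fintype V] [PartialOrder V]

open Classical in
/-- `(P, ω)`-partitions on `S` with values in `[v, N]`, lexicographically above `(v, a)`;
extended by `0` outside `S`. -/
noncomputable def PA (ω : V → ℤ) (S : Finset V) (v : ℕ) (a : ℤ) (N : ℕ) : Finset (V → ℕ) :=
  (Fintype.piFinset (fun _ : V => Finset.range (N + 1))).filter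
    (fun f => (∀ z, z ∉ S → f z = 0) ∧ (∀ z ∈ S, v ≤ f z ∧ (f z = v → a < ω z)) ∧
      ∀ y ∈ S, ∀ z ∈ S, y < z → f y ≤ f z ∧ (ω z < ω y → f y < f z))

lemma mem_PA {ω : V → ℤ} {S : Finset V} {v : ℕ} {a : ℤ} {N : ℕ} {f : V → ℕ} :
    f ∈ PA ω S v a N ↔ (∀ z, f z ≤ N) ∧ (∀ z, z ∉ S → f z = 0) ∧
      (∀ z ∈ S, v ≤ f z ∧ (f z = v → a < ω z)) ∧
      ∀ y ∈ S, ∀ z ∈ S, y < z → f y ≤ f z ∧ (ω z < ω y → f y < f z) := by
  classical
  simp [PA, Fintype.mem_piFinset]

open Classical in
/-- Split off the lexicographically smallest element. -/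
theorem PA_step (ω : V → ℤ) (hω : Function.Injective ω) {S : Finset V} (hS : S.Nonempty)
    (v : ℕ) (a : ℤ) (N : ℕ) :
    (PA ω S v a N).card = ∑ y ∈ mins S,
      ∑ u ∈ (Finset.range (N + 1)).filter (fun u => v ≤ u ∧ (u = v → a < ω y)),
        (PA ω (del S y) u (ω y) N).card := by
  rw [Finset.sum_sigma' (mins S)
    (fun y => (Finset.range (N + 1)).filter (fun u => v ≤ u ∧ (u = v → a < ω y)))
    (fun y u => (PA ω (del S y) u (ω y) N).card), ← Finset.card_sigma]
  symm
  refine Finset.card_bij (fun t _ => Function.update t.2 t.1.1 t.1.2) ?_ ?_ ?_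
  · rintro ⟨⟨y, u⟩, f⟩ ht
    simp only [Finset.mem_sigma, Finset.mem_filter, Finset.mem_range, mem_mins, mem_PA,
      mem_del] at ht ⊢
    obtain ⟨⟨⟨hyS, hymin⟩, huN, hvu, huv⟩, hfN, hf0, hflex, hfP⟩ := ht
    refine ⟨fun z => ?_, fun z hz => ?_, fun z hz => ?_, fun y1 hy1 z1 hz1 hlt => ?_⟩
    · by_cases hzy : z = y
      · subst hzy; rw [Function.update_self]; omega
      · rw [Function.update_of_ne hzy]; exact hfN z
    · have hzy : z ≠ y := fun h => hz (h ▸ hyS)
      rw [Function.update_of_ne hzy]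
      exact hf0 z (fun h => hz h.2)
    · by_cases hzy : z = y
      · subst hzy; rw [Function.update_self]; exact ⟨hvu, huv⟩
      · rw [Function.update_of_ne hzy]
        obtain ⟨h1, h2⟩ := hflex z ⟨hzy, hz⟩
        refine ⟨hvu.trans h1, fun h3 => ?_⟩
        have h4 : u = v := by omega
        have h5 := h2 (by omega)
        exact (huv h4).trans h5
    · by_cases hz1y : z1 = y
      · subst hz1y; exact absurd hlt (hymin y1 hy1)
      · rw [Function.update_of_ne hz1y]
        by_cases hy1y : y1 = y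
        · subst hy1y
          rw [Function.update_self]
          obtain ⟨h1, h2⟩ := hflex z1 ⟨hz1y, hz1⟩
          refine ⟨h1, fun h3 => ?_⟩
          rcases Nat.eq_or_lt_of_le h1 with h4 | h4
          · exact absurd (h2 h4.symm) (not_lt.2 h3.le)
          · exact h4
        · rw [Function.update_of_ne hy1y]
          exact hfP y1 ⟨hy1y, hy1⟩ z1 ⟨hz1y, hz1⟩ hlt
  · rintro ⟨⟨y1, u1⟩, f1⟩ h1 ⟨⟨y2, u2⟩, f2⟩ h2 he
    simp only [Finset.mem_sigma, Finset.mem_filter, Finset.mem_range, mem_mins, mem_PA,
      mem_del] at h1 h2 he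
    obtain ⟨⟨⟨hy1, -⟩, -, -, -⟩, -, hz1, hl1, -⟩ := h1
    obtain ⟨⟨⟨hy2, -⟩, -, -, -⟩, -, hz2, hl2, -⟩ := h2
    have hyy : y1 = y2 := by
      by_contra hne
      have e1 := congrFun he y1
      have e2 := congrFun he y2
      rw [Function.update_self, Function.update_of_ne hne] at e1
      rw [Function.update_self, Function.update_of_ne (Ne.symm hne)] at e2
      obtain ⟨a1, b1⟩ := hl1 y2 ⟨Ne.symm hne, hy2⟩
      obtain ⟨a2, b2⟩ := hl2 y1 ⟨hne, hy1⟩
      have h3 := b1 (by omega)
      have h4 := b2 (by omega)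
      exact absurd h3 (not_lt.2 h4.le)
    subst hyy
    have hu : u1 = u2 := by
      have e1 := congrFun he y1
      rwa [Function.update_self, Function.update_self] at e1
    subst hu
    have hf : f1 = f2 := by
      funext z
      by_cases hz : z = y1
      · subst hz
        rw [hz1 z (fun h => h.1 rfl), hz2 z (fun h => h.1 rfl)]
      · have e1 := congrFun he z
        rwa [Function.update_of_ne hz, Function.update_of_ne hz] at e1
    subst hf
    rfl
  · intro f hf
    rw [mem_PA] at hf
    obtain ⟨hfN, hf0, hflex, hfP⟩ := hf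
    obtain ⟨y, hyS, hymin⟩ := S.exists_min_image (fun z => toLex (f z, ω z)) hS
    have hlex : ∀ z ∈ S, z ≠ y → f y < f z ∨ (f y = f z ∧ ω y < ω z) := by
      intro z hz hzy
      have h1 := hymin z hz
      rw [Prod.Lex.toLex_le_toLex] at h1
      rcases h1 with h1 | ⟨h1, h2⟩
      · exact Or.inl h1
      · refine Or.inr ⟨h1, lt_of_le_of_ne h2 fun h3 => hzy ?_⟩
        exact (hω h3).symm
    refine ⟨⟨⟨y, f y⟩, Function.update f y 0⟩, ?_, ?_⟩
    · simp only [Finset.mem_sigma, Finset.mem_filter, Finset.mem_range, mem_mins, mem_PA,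
        mem_del]
      refine ⟨⟨⟨hyS, fun z hz hlt => ?_⟩, ?_, (hflex y hyS).1, (hflex y hyS).2⟩,
        fun z => ?_, fun z hz => ?_, fun z hz => ?_, fun y1 hy1 z1 hz1 hlt => ?_⟩
      · obtain ⟨h1, h2⟩ := hfP z hz y hyS hlt
        rcases hlex z hz hlt.ne with h3 | ⟨h3, h4⟩
        · omega
        · have := h2 h4
          omega
      · have := hfN y
        omega
      · by_cases hzy : z = y
        · subst hzy; rw [Function.update_self]; omega
        · rw [Function.update_of_ne hzy]; exact hfN z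
      · by_cases hzy : z = y
        · subst hzy; rw [Function.update_self]
        · rw [Function.update_of_ne hzy]; exact hf0 z (fun h => hz ⟨hzy, h⟩)
      · rw [Function.update_of_ne hz.1]
        rcases hlex z hz.2 hz.1 with h3 | ⟨h3, h4⟩
        · exact ⟨h3.le, fun h5 => by omega⟩
        · exact ⟨h3.le, fun _ => h4⟩
      · rw [Function.update_of_ne hy1.1, Function.update_of_ne hz1.1]
        exact hfP y1 hy1.2 z1 hz1.2 hlt
    · simp only [Function.update_idem, Function.update_eq_self]

lemma sum_allowed_ge (n : ℕ) (g : ℕ[X]) {v N : ℕ} (hv : v ≤ N) (P : ℕ → Prop)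
    [DecidablePred P] (hP : ∀ u, P u ↔ v ≤ u) :
    ∑ u ∈ (Finset.range (N + 1)).filter P, ev n g (N - u) = ev (n + 1) g (N - v) := by
  rw [← ev_sum_range]
  refine Finset.sum_bij' (fun u _ => N - u) (fun j _ => N - j) ?_ ?_ ?_ ?_ ?_
  · intro u hu
    simp only [Finset.mem_filter, Finset.mem_range, hP] at hu ⊢
    omega
  · intro u hu
    simp only [Finset.mem_filter, Finset.mem_range, hP] at hu ⊢
    omega
  · intro u hu
    simp only [Finset.mem_filter, Finset.mem_range, hP] at hu ⊢
    omega
  · intro u hu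
    simp only [Finset.mem_range] at hu ⊢
    omega
  · intro u hu
    rfl

lemma sum_allowed_gt (n : ℕ) (g : ℕ[X]) {v N : ℕ} (hv : v ≤ N) (P : ℕ → Prop)
    [DecidablePred P] (hP : ∀ u, P u ↔ v < u) :
    ∑ u ∈ (Finset.range (N + 1)).filter P, ev n g (N - u) = ev (n + 1) (X * g) (N - v) := by
  rcases Nat.eq_or_lt_of_le hv with rfl | hlt
  · have h1 : (Finset.range (v + 1)).filter P = ∅ := by
      rw [Finset.filter_eq_empty_iff]
      intro u hu
      rw [Finset.mem_range] at hu
      rw [hP]
      omega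
    have h2 := ev_X_pow_mul_of_lt (p := n + 1) (m := 1) (M := 0) g (by omega)
    rw [pow_one] at h2
    rw [h1, Finset.sum_empty, Nat.sub_self, h2]
  · rw [sum_allowed_ge n g (v := v + 1) (by omega) P (fun u => by rw [hP]; exact Nat.lt_iff_add_one_le)]
    have h2 := ev_X_pow_mul (p := n + 1) (m := 1) g (N - (v + 1))
    rw [pow_one, show N - (v + 1) + 1 = N - v by omega] at h2
    exact h2.symm

/-- The count with a start `x`. -/
theorem PA_card (ω : V → ℤ) (hω : Function.Injective ω) (N : ℕ) :
    ∀ (n : ℕ) (S : Finset V), S.card = n → ∀ x ∉ S, ∀ v ≤ N,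
      (PA ω S v (ω x) N).card = ev n (G (Dl ω) x S) (N - v) := by
  classical
  intro n
  induction n with
  | zero =>
    intro S hS x _ v hv
    rw [Finset.card_eq_zero] at hS
    subst hS
    have h1 : PA ω ∅ v (ω x) N = {fun _ => 0} := by
      ext f
      rw [mem_PA, Finset.mem_singleton]
      constructor
      · rintro ⟨-, h, -⟩
        funext z
        exact h z (by simp)
      · rintro rfl
        simp
    rw [h1, Finset.card_singleton, G_empty]
    unfold ev
    rw [Finset.sum_eq_single 0]
    · simp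
    · intro k _ hk
      rw [coeff_one, if_neg hk, zero_mul]
    · intro h
      exact absurd (Finset.mem_range.2 (Nat.succ_pos _)) h
  | succ n ih =>
    intro S hS x hx v hv
    have hne : S.Nonempty := Finset.card_pos.1 (by omega)
    rw [PA_step ω hω hne, G_rec (Dl ω) x hne, ev_sum]
    refine Finset.sum_congr rfl fun y hy => ?_
    have hyS := (mem_mins.1 hy).1
    have hc := card_del hyS
    have h1 : ∑ u ∈ (Finset.range (N + 1)).filter (fun u => v ≤ u ∧ (u = v → ω x < ω y)),
        (PA ω (del S y) u (ω y) N).card =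
        ∑ u ∈ (Finset.range (N + 1)).filter (fun u => v ≤ u ∧ (u = v → ω x < ω y)),
        ev n (G (Dl ω) y (del S y)) (N - u) := by
      refine Finset.sum_congr rfl fun u hu => ?_
      rw [Finset.mem_filter, Finset.mem_range] at hu
      exact ih (del S y) (by omega) y (fun h => (mem_del.1 h).1 rfl) u (by omega)
    rw [h1]
    have hxy : ω x ≠ ω y := fun h => hx (hω h ▸ hyS)
    by_cases hd : ω y < ω x
    · rw [sum_allowed_gt n _ hv]
      · unfold st Dl
        rw [if_pos hd]
      · intro u
        constructor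
        · rintro ⟨h2, h3⟩
          rcases Nat.eq_or_lt_of_le h2 with h4 | h4
          · exact absurd (h3 h4.symm) (not_lt.2 hd.le)
          · exact h4
        · intro h2
          exact ⟨h2.le, fun h3 => absurd h3 (by omega)⟩
    · rw [sum_allowed_ge n _ hv]
      · unfold st Dl
        rw [if_neg hd, one_mul]
      · intro u
        have h5 : ω x < ω y := lt_of_le_of_ne (not_lt.1 hd) hxy
        exact ⟨fun h => h.1, fun h => ⟨h, fun _ => h5⟩⟩

/-- The fundamental theorem. -/
theorem Om_eq_ev [Nonempty V] (ω : V → ℤ) (hω : Function.Injective ω) (N : ℕ) :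
    Om ω N = ev (Fintype.card V) (W (Dl ω) Finset.univ) N := by
  classical
  obtain ⟨x0, hx0⟩ := Finite.exists_min ω
  have hN : ∀ z, ω x0 - 1 < ω z := fun z => by have := hx0 z; omega
  have h1 : Om ω N = (PA ω Finset.univ 0 (ω x0 - 1) N).card := by
    unfold Om
    rw [← Nat.card_eq_finsetCard]
    refine Nat.card_congr ?_
    refine
      { toFun := fun f => ⟨fun x => (f.1 x).toNat, ?_⟩
        invFun := fun g => ⟨fun x => (g.1 x : ℤ), ?_⟩
        left_inv := ?_
        right_inv := ?_ }
    · obtain ⟨f, hf1, hf2⟩ := f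
      rw [mem_PA]
      refine ⟨fun z => ?_, fun z hz => absurd (Finset.mem_univ z) hz,
        fun z _ => ⟨Nat.zero_le _, fun _ => hN z⟩, fun y _ z _ hlt => ?_⟩
      · have := hf1 z
        simp only
        omega
      · have h1 := hf1 y
        have h2 := hf1 z
        have h3 := hf2 y z hlt
        simp only
        refine ⟨by omega, fun h => ?_⟩
        have := h3.2 h
        omega
    · obtain ⟨g, hg⟩ := g
      rw [mem_PA] at hg
      obtain ⟨hg1, -, -, hg2⟩ := hg
      refine ⟨fun x => ⟨by simp, by have := hg1 x; simp only; omega⟩, fun x y hxy => ?_⟩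
      have h1 := hg2 x (Finset.mem_univ x) y (Finset.mem_univ y) hxy
      simp only
      refine ⟨by omega, fun h => ?_⟩
      have := h1.2 h
      omega
    · rintro ⟨f, hf⟩
      simp only [Subtype.mk.injEq]
      funext x
      have := hf.1 x
      omega
    · rintro ⟨g, hg⟩
      simp
  have hne : (Finset.univ : Finset V).Nonempty := Finset.univ_nonempty
  rw [h1, PA_step ω hω hne, W, ev_sum]
  refine Finset.sum_congr rfl fun y hy => ?_
  have hc := card_del (Finset.mem_univ y)
  rw [Finset.card_univ] at hc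
  have h2 : ∑ u ∈ (Finset.range (N + 1)).filter (fun u => 0 ≤ u ∧ (u = 0 → ω x0 - 1 < ω y)),
      (PA ω (del Finset.univ y) u (ω y) N).card =
      ∑ u ∈ (Finset.range (N + 1)).filter (fun u => 0 ≤ u ∧ (u = 0 → ω x0 - 1 < ω y)),
      ev (del Finset.univ y).card (G (Dl ω) y (del Finset.univ y)) (N - u) := by
    refine Finset.sum_congr rfl fun u hu => ?_
    rw [Finset.mem_filter, Finset.mem_range] at hu
    exact PA_card ω hω N _ (del Finset.univ y) rfl y (fun h => (mem_del.1 h).1 rfl) u (by omega)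
  rw [h2, sum_allowed_ge _ _ (Nat.zero_le N)]
  · rw [hc, Nat.sub_zero]
  · intro u
    exact ⟨fun h => h.1, fun h => ⟨h, fun _ => hN y⟩⟩

end Pool.GT34
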