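import Pool.Agent.GT34.Defs

set_option autoImplicit false

/-!
# GT34/Gauge: the bijection `f ↦ f + h`
-/

open Polynomial

namespace Pool.GT34

variable {V : Type} [Fintype V] [PartialOrder V]

/-- A relation which holds on covers and is transitive holds on all pairs `x < y`. -/
lemma of_covBy (r : V → V → Prop) (htr : ∀ x y z, r x y → r y z → r x z)
    (hcov : ∀ x y, x ⋖ y → r x y) : ∀ x y, x < y → r x y := by
  classical
  let _ : LocallyFiniteOrder V := Fintype.toLocallyFiniteOrder
  intro x y hxy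
  have h := transGen_covBy_of_lt hxy
  induction h with
  | single h => exact hcov _ _ h
  | tail h1 h2 ih => exact htr _ _ _ (ih (lt_iff_transGen_covBy.2 h1)) (hcov _ _ h2)

lemma exists_isMin_le (x : V) : ∃ y, y ≤ x ∧ IsMin y := by
  classical
  obtain ⟨y, hy, hmin⟩ := (Set.toFinite (Set.Iic x)).exists_minimal ⟨x, Set.mem_Iic.2 le_rfl⟩
  refine ⟨y, hy, fun z hz => ?_⟩
  exact hmin (Set.mem_Iic.2 (hz.trans hy)) hz

lemma exists_le_isMax (x : V) : ∃ y, x ≤ y ∧ IsMax y := by
  classical
  obtain ⟨y, hy, hmax⟩ := (Set.toFinite (Set.Ici x)).exists_maximal ⟨x, Set.mem_Ici.2 le_rfl⟩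
  refine ⟨y, hy, fun z hz => ?_⟩
  exact hmax (Set.mem_Ici.2 (le_trans hy hz)) hz

/-- The gauge bijection. -/
theorem Om_gauge (ω ω' : V → ℤ) (hω : ∀ x y, x < y → ω x < ω y) (h : V → ℕ) (m : ℕ)
    (hcov : ∀ x y, x ⋖ y → (h y = h x ∧ ω' x < ω' y) ∨ (h y = h x + 1 ∧ ω' y < ω' x))
    (hmin : ∀ x, IsMin x → h x = 0) (hmax : ∀ x, IsMax x → h x = m) (M : ℤ) :
    Om ω' M = Om ω (M - m) := by
  have hhmono : ∀ x y, x < y → h x ≤ h y :=
    of_covBy (fun x y => h x ≤ h y) (fun _ _ _ h1 h2 => h1.trans h2) (by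
      intro x y hxy
      rcases hcov x y hxy with h1 | h1 <;> omega)
  refine (Nat.card_congr ?_).symm
  refine
    { toFun := fun f => ⟨fun x => f.1 x + h x, ?_⟩
      invFun := fun g => ⟨fun x => g.1 x - h x, ?_⟩
      left_inv := ?_
      right_inv := ?_ }
  · obtain ⟨f, hf1, hf2⟩ := f
    refine ⟨fun x => ?_, ?_⟩
    · obtain ⟨y, hxy, hy⟩ := exists_le_isMax x
      have h1 := hf1 x
      have h2 := hmax y hy
      have h3 : h x ≤ h y := by
        rcases eq_or_lt_of_le hxy with rfl | hlt
        · exact le_rfl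
        · exact hhmono x y hlt
      simp only
      omega
    · have key : ∀ x y, x < y → f x + h x < f y + h y ∨
          (f x + h x = f y + h y ∧ ω' x < ω' y) := by
        refine of_covBy (fun x y => f x + h x < f y + h y ∨
          (f x + h x = f y + h y ∧ ω' x < ω' y)) ?_ ?_
        · intro x y z h1 h2
          rcases h1 with h1 | ⟨h1, h1'⟩ <;> rcases h2 with h2 | ⟨h2, h2'⟩ <;> omega
        · intro x y hxy
          have h1 := (hf2 x y hxy.lt).1
          rcases hcov x y hxy with h2 | h2 <;> omega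
      intro x y hxy
      have := key x y hxy
      simp only
      constructor
      · omega
      · intro; omega
  · obtain ⟨g, hg1, hg2⟩ := g
    have key : ∀ x y, x < y → g x - h x ≤ g y - h y := by
      refine of_covBy (fun x y => g x - h x ≤ g y - h y) (fun _ _ _ h1 h2 => h1.trans h2) ?_
      intro x y hxy
      have h1 := hg2 x y hxy.lt
      rcases hcov x y hxy with h2 | h2
      · omega
      · have h3 := h1.2 h2.2
        omega
    refine ⟨fun x => ⟨?_, ?_⟩, ?_⟩
    · obtain ⟨y, hyx, hy⟩ := exists_isMin_le x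
      have h1 := hmin y hy
      have h2 := (hg1 y).1
      simp only
      rcases eq_or_lt_of_le hyx with rfl | hlt
      · omega
      · have := key y x hlt
        omega
    · obtain ⟨y, hxy, hy⟩ := exists_le_isMax x
      have h1 := hmax y hy
      have h2 := (hg1 y).2
      simp only
      rcases eq_or_lt_of_le hxy with rfl | hlt
      · omega
      · have := key x y hlt
        omega
    · intro x y hxy
      refine ⟨key x y hxy, fun h1 => ?_⟩
      exact absurd h1 (not_lt.2 (hω x y hxy).le)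
  · rintro ⟨f, hf⟩
    simp
  · rintro ⟨g, hg⟩
    simp

omit [Fintype V] in
/-- For natural labellings the strictness condition is void. -/
lemma Om_natural (ω : V → ℤ) (hω : ∀ x y, x < y → ω x < ω y) (N : ℤ) :
    Om ω N = Nat.card {f : V → ℤ // (∀ x, 0 ≤ f x ∧ f x ≤ N) ∧ ∀ x y, x < y → f x ≤ f y} := by
  refine Nat.card_congr (Equiv.subtypeEquivRight fun f => ?_)
  refine and_congr_right fun _ => ⟨fun h x y hxy => (h x y hxy).1, fun h x y hxy =>
    ⟨h x y hxy, fun h1 => absurd h1 (not_lt.2 (hω x y hxy).le)⟩⟩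

omit [Fintype V] in
/-- Nothing below zero. -/
lemma Om_neg [Nonempty V] (ω : V → ℤ) {N : ℤ} (hN : N < 0) : Om ω N = 0 := by
  unfold Om
  have : IsEmpty {f : V → ℤ // (∀ x, 0 ≤ f x ∧ f x ≤ N) ∧
      ∀ x y, x < y → f x ≤ f y ∧ (ω y < ω x → f x < f y)} := by
    constructor
    rintro ⟨f, hf, -⟩
    obtain ⟨x⟩ := (inferInstance : Nonempty V)
    have := hf x
    omega
  exact Nat.card_of_isEmpty

end Pool.GT34
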