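import Pool.Agent.GT34.Defs

set_option autoImplicit false

/-!
# GT34/Block: cutting a linear extension at the first change of class

`cl : V → Bool` is the class (`true` = high labels).  The hypothesis on `D`: between different
classes there is a descent exactly from high to low.
-/

open Polynomial

namespace Pool.GT34

variable {V : Type} [PartialOrder V]

/-- The factor for leaving class `c`. -/
noncomputable def xc (c : Bool) : ℕ[X] := if c = true then X else 1

omit [PartialOrder V] in
lemma st_of_ne {D : V → V → Prop} {cl : V → Bool}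
    (hD : ∀ x y, cl x ≠ cl y → (D x y ↔ cl x = true)) {x y : V} (h : cl y = !cl x) :
    st D x y = xc (cl x) := by
  have h1 : cl x ≠ cl y := by
    rw [h]
    cases cl x <;> simp
  unfold st xc
  by_cases h2 : cl x = true
  · rw [if_pos h2, if_pos ((hD x y h1).2 h2)]
  · rw [if_neg h2, if_neg (fun h3 => h2 ((hD x y h1).1 h3))]

lemma Z_of_nonempty (D : V → V → Prop) (cl : V → Bool) (c : Bool) {S : Finset V}
    (hS : S.Nonempty) :
    Z D cl c S = xc c * ∑ y ∈ (mins S).filter (fun y => cl y = !c), G D y (del S y) := by
  classical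
  unfold Z xc
  rw [if_neg hS.ne_empty]

/-- Reindexing: pairs (minimal `y` of class `c`, lower `B'` of `S ∖ y` in class `c`) correspond to
pairs (nonempty lower `B` of `S` in class `c`, minimal `y` of `B`), with `B' = B ∖ y`. -/
lemma reindex (cl : V → Bool) (c : Bool) (S : Finset V) (F : V → Finset V → Finset V → ℕ[X]) :
    ∑ y ∈ (mins S).filter (fun y => cl y = c), ∑ B' ∈ lows cl c (del S y),
        F y B' (sdf (del S y) B') =
      ∑ B ∈ lows cl c S, ∑ y ∈ mins B, F y (del B y) (sdf S B) := by
  classical
  rw [Finset.sum_sigma', Finset.sum_sigma']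
  refine Finset.sum_bij' (fun p _ => ⟨insert p.1 p.2, p.1⟩) (fun p _ => ⟨p.2, del p.1 p.2⟩)
    ?_ ?_ ?_ ?_ ?_
  · rintro ⟨y, B'⟩ h
    simp only [Finset.mem_sigma, Finset.mem_filter, mem_mins, mem_lows] at h ⊢
    obtain ⟨⟨⟨hyS, hymin⟩, hyc⟩, hsub, hcl, hlow⟩ := h
    refine ⟨⟨?_, ?_, ?_⟩, Finset.mem_insert_self _ _, ?_⟩
    · intro z hz
      rcases Finset.mem_insert.1 hz with rfl | hz
      · exact hyS
      · exact (mem_del.1 (hsub hz)).2
    · intro z hz
      rcases Finset.mem_insert.1 hz with rfl | hz
      · exact hyc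
      · exact hcl z hz
    · intro z hz w hw hwz
      rcases Finset.mem_insert.1 hz with rfl | hz
      · exact absurd hwz (hymin w hw)
      · by_cases hwy : w = y
        · exact hwy ▸ Finset.mem_insert_self _ _
        · exact Finset.mem_insert_of_mem (hlow z hz w (mem_del.2 ⟨hwy, hw⟩) hwz)
    · intro z hz
      rcases Finset.mem_insert.1 hz with rfl | hz
      · exact lt_irrefl _
      · exact hymin z (mem_del.1 (hsub hz)).2
  · rintro ⟨B, y⟩ h
    simp only [Finset.mem_sigma, Finset.mem_filter, mem_mins, mem_lows] at h ⊢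
    obtain ⟨⟨hsub, hcl, hlow⟩, hyB, hymin⟩ := h
    refine ⟨⟨⟨hsub hyB, fun z hz hzy => hymin z (hlow y hyB z hz hzy) hzy⟩, hcl y hyB⟩, ?_, ?_, ?_⟩
    · intro z hz
      rw [mem_del] at hz ⊢
      exact ⟨hz.1, hsub hz.2⟩
    · intro z hz
      exact hcl z (mem_del.1 hz).2
    · intro z hz w hw hwz
      rw [mem_del] at hz hw ⊢
      exact ⟨hw.1, hlow z hz.2 w hw.2 hwz⟩
  · rintro ⟨y, B'⟩ h
    simp only [Finset.mem_sigma, Finset.mem_filter, mem_mins, mem_lows] at h
    obtain ⟨-, hsub, -, -⟩ := h
    have : del (insert y B') y = B' := by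
      ext z
      rw [mem_del, Finset.mem_insert]
      constructor
      · rintro ⟨h1, h2 | h2⟩
        · exact absurd h2 h1
        · exact h2
      · intro h1
        exact ⟨fun h2 => (mem_del.1 (hsub (h2 ▸ h1))).1 rfl, Or.inr h1⟩
    simp [this]
  · rintro ⟨B, y⟩ h
    simp only [Finset.mem_sigma, mem_mins, mem_lows] at h
    obtain ⟨-, hyB, -⟩ := h
    have : insert y (del B y) = B := by
      ext z
      rw [Finset.mem_insert, mem_del]
      constructor
      · rintro (rfl | h)
        · exact hyB
        · exact h.2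
      · intro h
        by_cases hz : z = y
        · exact Or.inl hz
        · exact Or.inr ⟨hz, h⟩
    simp [this]
  · rintro ⟨y, B'⟩ h
    simp only [Finset.mem_sigma, Finset.mem_filter, mem_mins, mem_lows] at h
    obtain ⟨-, hsub, -, -⟩ := h
    have e1 : del (insert y B') y = B' := by
      ext z
      rw [mem_del, Finset.mem_insert]
      constructor
      · rintro ⟨h1, h2 | h2⟩
        · exact absurd h2 h1
        · exact h2
      · intro h1
        exact ⟨fun h2 => (mem_del.1 (hsub (h2 ▸ h1))).1 rfl, Or.inr h1⟩
    have e2 : sdf (del S y) B' = sdf S (insert y B') := by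
      ext z
      simp only [mem_sdf, mem_del, Finset.mem_insert]
      tauto
    simp only [e1, e2]

/-- The block lemma. -/
theorem G_block (D : V → V → Prop) (cl : V → Bool)
    (hD : ∀ x y, cl x ≠ cl y → (D x y ↔ cl x = true)) :
    ∀ (n : ℕ) (x : V) (S : Finset V), S.card = n →
      G D x S = ∑ B ∈ lows cl (cl x) S, G D x B * Z D cl (cl x) (sdf S B) := by
  classical
  intro n
  induction n with
  | zero =>
    intro x S hS
    rw [Finset.card_eq_zero] at hS
    subst hS
    have h1 : lows cl (cl x) (∅ : Finset V) = {∅} := by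
      ext B
      rw [mem_lows, Finset.mem_singleton]
      constructor
      · exact fun h => Finset.subset_empty.1 h.1
      · rintro rfl
        simp
    rw [h1, Finset.sum_singleton, G_empty, one_mul]
    have h2 : sdf (∅ : Finset V) ∅ = ∅ := by
      ext z
      simp [mem_sdf]
    rw [h2, Z_empty]
  | succ n ih =>
    intro x S hS
    have hne : S.Nonempty := Finset.card_pos.1 (by omega)
    -- the right side: split off `B = ∅`
    have hempty : (∅ : Finset V) ∈ lows cl (cl x) S := by
      rw [mem_lows]; simp
    have hs0 : sdf S ∅ = S := by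
      ext z; simp [mem_sdf]
    rw [← Finset.add_sum_erase _ _ hempty, G_empty, one_mul, hs0, Z_of_nonempty D cl _ hne]
    -- the left side: split by the class of the first element
    rw [G_rec D x hne, ← Finset.sum_filter_add_sum_filter_not (mins S) (fun y => cl y = !cl x)]
    congr 1
    · rw [Finset.mul_sum]
      refine Finset.sum_congr rfl fun y hy => ?_
      rw [st_of_ne hD (Finset.mem_filter.1 hy).2]
    · have hf : (mins S).filter (fun y => ¬ cl y = !cl x) = (mins S).filter (fun y => cl y = cl x) := by
        refine Finset.filter_congr fun y _ => ?_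
        cases cl y <;> cases cl x <;> simp
      rw [hf]
      have h1 : ∑ y ∈ (mins S).filter (fun y => cl y = cl x), st D x y * G D y (del S y) =
          ∑ y ∈ (mins S).filter (fun y => cl y = cl x), ∑ B' ∈ lows cl (cl x) (del S y),
            st D x y * G D y B' * Z D cl (cl x) (sdf (del S y) B') := by
        refine Finset.sum_congr rfl fun y hy => ?_
        have hy' := Finset.mem_filter.1 hy
        have hcard := card_del (mem_mins.1 hy'.1).1
        rw [ih y (del S y) (by omega), Finset.mul_sum, hy'.2]
        refine Finset.sum_congr rfl fun B' _ => ?_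
        rw [mul_assoc]
      rw [h1, reindex cl (cl x) S (fun y B' R => st D x y * G D y B' * Z D cl (cl x) R),
        ← Finset.add_sum_erase _ _ hempty]
      have h2 : mins (∅ : Finset V) = ∅ := by
        ext z; simp [mem_mins]
      rw [h2, Finset.sum_empty, zero_add]
      refine Finset.sum_congr rfl fun B hB => ?_
      have hBne : B.Nonempty := Finset.nonempty_iff_ne_empty.2 (Finset.mem_erase.1 hB).1
      rw [G_rec D x hBne, Finset.sum_mul]

/-- Sum over the first elements of class `c`. -/
theorem class_sum (D : V → V → Prop) (cl : V → Bool)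
    (hD : ∀ x y, cl x ≠ cl y → (D x y ↔ cl x = true)) (c : Bool) (S : Finset V) :
    ∑ y ∈ (mins S).filter (fun y => cl y = c), G D y (del S y) =
      ∑ B ∈ lows cl c S, W D B * Z D cl c (sdf S B) := by
  classical
  have h1 : ∑ y ∈ (mins S).filter (fun y => cl y = c), G D y (del S y) =
      ∑ y ∈ (mins S).filter (fun y => cl y = c), ∑ B' ∈ lows cl c (del S y),
        G D y B' * Z D cl c (sdf (del S y) B') := by
    refine Finset.sum_congr rfl fun y hy => ?_
    have hy' := Finset.mem_filter.1 hy
    rw [G_block D cl hD _ y (del S y) rfl, hy'.2]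
  rw [h1, reindex cl c S (fun y B' R => G D y B' * Z D cl c R)]
  refine Finset.sum_congr rfl fun B _ => ?_
  rw [W, Finset.sum_mul]

theorem Z_block (D : V → V → Prop) (cl : V → Bool)
    (hD : ∀ x y, cl x ≠ cl y → (D x y ↔ cl x = true)) (c : Bool) {S : Finset V}
    (hS : S.Nonempty) :
    Z D cl c S = xc c * ∑ B ∈ lows cl (!c) S, W D B * Z D cl (!c) (sdf S B) := by
  rw [Z_of_nonempty D cl c hS, class_sum D cl hD]

theorem W_block (D : V → V → Prop) (cl : V → Bool)
    (hD : ∀ x y, cl x ≠ cl y → (D x y ↔ cl x = true)) (S : Finset V) :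
    W D S = ∑ B ∈ lows cl true S, W D B * Z D cl true (sdf S B) +
      ∑ B ∈ lows cl false S, W D B * Z D cl false (sdf S B) := by
  classical
  rw [← class_sum D cl hD, ← class_sum D cl hD, W,
    ← Finset.sum_filter_add_sum_filter_not (mins S) (fun y => cl y = true)]
  congr 1
  refine Finset.sum_congr ?_ fun _ _ => rfl
  refine Finset.filter_congr fun y _ => ?_
  simp

lemma W_empty (D : V → V → Prop) : W D (∅ : Finset V) = 0 := by
  classical
  have h2 : mins (∅ : Finset V) = ∅ := by
    ext z; simp [mem_mins]
  rw [W, h2, Finset.sum_empty]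

end Pool.GT34
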