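import Pool.Agent.GT34.Poly
import Pool.Agent.GT34.Block

set_option autoImplicit false

/-!
# GT34/Cone: propagation of the cones through the block decomposition
-/

open Polynomial

namespace Pool.GT34

variable {V : Type} [PartialOrder V]

lemma X_mul_mem_Up {s : ℤ} {h : ℕ[X]} (hh : h ∈ Up s) : X * h ∈ Up (s + 2) := by
  have := X_pow_mul_mem_Up hh 1
  simpa using this

lemma X_mul_mem_Lo {s : ℤ} {h : ℕ[X]} (hh : h ∈ Lo s) : X * h ∈ Lo (s + 2) := by
  have := X_pow_mul_mem_Lo hh 1
  simpa using this

/-- Monochromatic blocks in `Up (|B| - 1)`. -/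
def BlocksUp (D : V → V → Prop) (cl : V → Bool) : Prop :=
  ∀ B : Finset V, B.Nonempty → ∀ c, (∀ y ∈ B, cl y = c) → W D B ∈ Up ((B.card : ℤ) - 1)

/-- Monochromatic blocks in `Lo (|B| - 1)`. -/
def BlocksLo (D : V → V → Prop) (cl : V → Bool) : Prop :=
  ∀ B : Finset V, B.Nonempty → ∀ c, (∀ y ∈ B, cl y = c) → W D B ∈ Lo ((B.card : ℤ) - 1)

/-- The exponent for `Z` in the `Up` case: `Z_0(S) ∈ Up (|S| - 1)` and `Z_1(S) ∈ Up |S|`, and
both are in `Up 0` for `S = ∅`. -/
theorem Z_Up {D : V → V → Prop} {cl : V → Bool}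
    (hD : ∀ x y, cl x ≠ cl y → (D x y ↔ cl x = true)) (hW : BlocksUp D cl) :
    ∀ (n : ℕ) (S : Finset V), S.card = n →
      Z D cl true S ∈ Up (S.card : ℤ) ∧ (S.Nonempty → Z D cl false S ∈ Up ((S.card : ℤ) - 1)) := by
  classical
  intro n
  induction n using Nat.strong_induction_on with
  | _ n ih =>
    intro S hSn
    rcases S.eq_empty_or_nonempty with rfl | hne
    · refine ⟨?_, fun h => absurd h (by simp)⟩
      rw [Z_empty]
      simpa using one_mem_Up
    · refine ⟨?_, fun _ => ?_⟩
      · rw [Z_block D cl hD true hne]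
        have e : (xc true : ℕ[X]) = X := by simp [xc]
        rw [e, Finset.mul_sum]
        refine sum_mem fun B hB => ?_
        rcases B.eq_empty_or_nonempty with rfl | hBne
        · rw [W_empty]; simp
        rw [mem_lows] at hB
        obtain ⟨hsub, hcl, -⟩ := hB
        have hc := card_sdf hsub
        have hBpos := hBne.card_pos
        have h1 := hW B hBne _ hcl
        by_cases hR : sdf S B = ∅
        · rw [hR, Bool.not_true, Z_empty, mul_one]
          rw [hR, Finset.card_empty] at hc
          refine Up_mono ?_ (X_mul_mem_Up h1)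
          omega
        · have h2 := (ih (sdf S B).card (by omega) (sdf S B) rfl).2 (Finset.nonempty_iff_ne_empty.2 hR)
          rw [Bool.not_true]
          refine Up_mono ?_ (X_mul_mem_Up (mul_mem_Up h1 h2))
          omega
      · rw [Z_block D cl hD false hne]
        have e : (xc false : ℕ[X]) = 1 := by simp [xc]
        rw [e, one_mul]
        refine sum_mem fun B hB => ?_
        rcases B.eq_empty_or_nonempty with rfl | hBne
        · rw [W_empty]; simp
        rw [mem_lows] at hB
        obtain ⟨hsub, hcl, -⟩ := hB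
        have hc := card_sdf hsub
        have hBpos := hBne.card_pos
        have h1 := hW B hBne _ hcl
        have h2 := (ih (sdf S B).card (by omega) (sdf S B) rfl).1
        rw [Bool.not_false]
        refine Up_mono ?_ (mul_mem_Up h1 h2)
        omega

theorem cone_Up {D : V → V → Prop} {cl : V → Bool}
    (hD : ∀ x y, cl x ≠ cl y → (D x y ↔ cl x = true)) (hW : BlocksUp D cl) (S : Finset V) :
    W D S ∈ Up ((S.card : ℤ) - 2) := by
  classical
  rw [W_block D cl hD]
  refine add_mem (sum_mem fun B hB => ?_) (sum_mem fun B hB => ?_)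
  all_goals
    rcases B.eq_empty_or_nonempty with rfl | hBne
    · rw [W_empty]; simp
    rw [mem_lows] at hB
    obtain ⟨hsub, hcl, -⟩ := hB
    have hc := card_sdf hsub
    have hBpos := hBne.card_pos
    have h1 := hW B hBne _ hcl
    have h2 := Z_Up hD hW _ (sdf S B) rfl
  · refine Up_mono ?_ (mul_mem_Up h1 h2.1)
    omega
  · by_cases hR : sdf S B = ∅
    · rw [hR, Z_empty, mul_one]
      rw [hR, Finset.card_empty] at hc
      refine Up_mono ?_ h1
      omega
    · refine Up_mono ?_ (mul_mem_Up h1 (h2.2 (Finset.nonempty_iff_ne_empty.2 hR)))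
      omega

theorem Z_Lo {D : V → V → Prop} {cl : V → Bool}
    (hD : ∀ x y, cl x ≠ cl y → (D x y ↔ cl x = true)) (hW : BlocksLo D cl) :
    ∀ (n : ℕ) (S : Finset V), S.card = n →
      Z D cl true S ∈ Lo ((S.card : ℤ) + 1) ∧ Z D cl false S ∈ Lo (S.card : ℤ) := by
  classical
  intro n
  induction n using Nat.strong_induction_on with
  | _ n ih =>
    intro S hSn
    rcases S.eq_empty_or_nonempty with rfl | hne
    · rw [Z_empty, Z_empty]
      refine ⟨Lo_mono ?_ one_mem_Lo, Lo_mono ?_ one_mem_Lo⟩ <;> simp
    · refine ⟨?_, ?_⟩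
      · rw [Z_block D cl hD true hne]
        have e : (xc true : ℕ[X]) = X := by simp [xc]
        rw [e, Finset.mul_sum]
        refine sum_mem fun B hB => ?_
        rcases B.eq_empty_or_nonempty with rfl | hBne
        · rw [W_empty]; simp
        rw [mem_lows] at hB
        obtain ⟨hsub, hcl, -⟩ := hB
        have hc := card_sdf hsub
        have hBpos := hBne.card_pos
        have h1 := hW B hBne _ hcl
        have h2 := (ih (sdf S B).card (by omega) (sdf S B) rfl).2
        rw [Bool.not_true]
        refine Lo_mono ?_ (X_mul_mem_Lo (mul_mem_Lo h1 h2))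
        omega
      · rw [Z_block D cl hD false hne]
        have e : (xc false : ℕ[X]) = 1 := by simp [xc]
        rw [e, one_mul]
        refine sum_mem fun B hB => ?_
        rcases B.eq_empty_or_nonempty with rfl | hBne
        · rw [W_empty]; simp
        rw [mem_lows] at hB
        obtain ⟨hsub, hcl, -⟩ := hB
        have hc := card_sdf hsub
        have hBpos := hBne.card_pos
        have h1 := hW B hBne _ hcl
        have h2 := (ih (sdf S B).card (by omega) (sdf S B) rfl).1
        rw [Bool.not_false]
        refine Lo_mono ?_ (mul_mem_Lo h1 h2)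
        omega

theorem cone_Lo {D : V → V → Prop} {cl : V → Bool}
    (hD : ∀ x y, cl x ≠ cl y → (D x y ↔ cl x = true)) (hW : BlocksLo D cl) (S : Finset V) :
    W D S ∈ Lo (S.card : ℤ) := by
  classical
  rw [W_block D cl hD]
  refine add_mem (sum_mem fun B hB => ?_) (sum_mem fun B hB => ?_)
  all_goals
    rcases B.eq_empty_or_nonempty with rfl | hBne
    · rw [W_empty]; simp
    rw [mem_lows] at hB
    obtain ⟨hsub, hcl, -⟩ := hB
    have hc := card_sdf hsub
    have hBpos := hBne.card_pos
    have h1 := hW B hBne _ hcl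
    have h2 := Z_Lo hD hW _ (sdf S B) rfl
  · refine Lo_mono ?_ (mul_mem_Lo h1 h2.1)
    omega
  · refine Lo_mono ?_ (mul_mem_Lo h1 h2.2)
    omega

end Pool.GT34
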