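import Pool.Agent.GT34.Final

set_option autoImplicit false

/-!
# GT34/Cor: two explicit families covered by the gauge theorem

* posets without a chain of four elements;
* posets all of whose maximal chains have `a` or `a + 1` elements.
-/

namespace Pool.GT34

section NoFourChain

variable {V : Type} [PartialOrder V]

open Classical in
theorem gaugeI_noFour (h4 : ∀ a b c d : V, a < b → b < c → ¬ c < d) :
    GaugeI' (fun x : V => if IsMin x then (if IsMax x then 1 else 0)
      else (if IsMax x then 2 else 1)) 2 := by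
  refine ⟨fun x y hxy => ?_, fun x h1 h2 => ?_, fun x h1 h2 => ?_⟩
  · have hx : ¬ IsMax x := fun h => h.not_lt hxy.lt
    have hy : ¬ IsMin y := fun h => h.not_lt hxy.lt
    simp only [if_neg hx, if_neg hy]
    by_cases h1 : IsMin x
    · by_cases h2 : IsMax y
      · simp [h1, h2]
      · simp [h1, h2]
    · by_cases h2 : IsMax y
      · simp [h1, h2]
      · exfalso
        rw [isMin_iff_forall_not_lt] at h1
        rw [isMax_iff_forall_not_lt] at h2
        push Not at h1 h2
        obtain ⟨a, ha⟩ := h1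
        obtain ⟨d, hd⟩ := h2
        exact h4 a x y d ha hxy.lt hd
  · simp [h1, h2]
  · simp [h1, h2]

theorem gaugeD_const : GaugeD (fun _ : V => 1) 2 :=
  ⟨fun _ _ _ => ⟨le_rfl, by omega⟩, fun _ _ => le_rfl, fun _ _ => Or.inr rfl⟩

/-- Every finite poset without a four-element chain has unimodal descent numbers. -/
theorem unimodal_of_noFour (α : Type) [Fintype α] [PartialOrder α]
    (f : α ≃ Fin (Fintype.card α)) (hf : ∀ x y : α, x < y → f x < f y)
    (h4 : ∀ a b c d : α, a < b → b < c → ¬ c < d) :
    ∃ m : ℕ, ∀ k : ℕ, (k < m → wnum α f k ≤ wnum α f (k + 1)) ∧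
      (m ≤ k → wnum α f (k + 1) ≤ wnum α f k) :=
  gauge_theorem α f hf _ _ 2 2 (gaugeI_noFour h4) gaugeD_const (Or.inl (by omega))

end NoFourChain

section TwoLengths

variable {V : Type} [PartialOrder V]

/-- There is a saturated chain with `n` elements from `x` up to a maximal element. -/
inductive UpC : V → ℕ → Prop
  | base (x : V) : IsMax x → UpC x 1
  | step (x y : V) (n : ℕ) : x ⋖ y → UpC y n → UpC x (n + 1)

/-- There is a saturated chain with `n` elements from a minimal element up to `x`. -/
inductive DnC : V → ℕ → Prop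
  | base (x : V) : IsMin x → DnC x 1
  | step (x y : V) (n : ℕ) : x ⋖ y → DnC x n → DnC y (n + 1)

lemma UpC.set {x : V} {n : ℕ} (h : UpC x n) : ∃ s : Finset V, s.card = n ∧ x ∈ s ∧
    (∀ z ∈ s, x ≤ z) ∧ IsChain (· ≤ ·) (s : Set V) ∧
    ∀ z, x ≤ z → (∀ t ∈ s, z ≤ t ∨ t ≤ z) → z ∈ s := by
  classical
  induction h with
  | base x hx =>
    refine ⟨{x}, by simp, by simp, by simp, by simp, fun z hz _ => ?_⟩
    rw [Finset.mem_singleton]
    exact le_antisymm (hx hz) hz
  | step x y n hxy _ ih =>
    obtain ⟨s, h1, h2, h3, h4, h5⟩ := ih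
    have hxs : x ∉ s := fun h => absurd (h3 x h) (not_le_of_gt hxy.lt)
    refine ⟨insert x s, by rw [Finset.card_insert_of_notMem hxs, h1],
      Finset.mem_insert_self _ _, fun z hz => ?_, ?_, fun z hz ht => ?_⟩
    · rcases Finset.mem_insert.1 hz with rfl | hz
      · exact le_rfl
      · exact hxy.le.trans (h3 z hz)
    · rw [Finset.coe_insert]
      refine h4.insert fun b hb _ => Or.inl (hxy.le.trans (h3 b hb))
    · have hzy := ht y (Finset.mem_insert_of_mem h2)
      rcases hzy with hzy | hzy
      · rcases hz.eq_or_lt with rfl | hlt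
        · exact Finset.mem_insert_self _ _
        · rcases hzy.eq_or_lt with rfl | hlt'
          · exact Finset.mem_insert_of_mem h2
          · exact absurd hlt' (hxy.2 hlt)
      · exact Finset.mem_insert_of_mem
          (h5 z hzy fun t ht' => ht t (Finset.mem_insert_of_mem ht'))

lemma DnC.set {x : V} {n : ℕ} (h : DnC x n) : ∃ s : Finset V, s.card = n ∧ x ∈ s ∧
    (∀ z ∈ s, z ≤ x) ∧ IsChain (· ≤ ·) (s : Set V) ∧
    ∀ z, z ≤ x → (∀ t ∈ s, z ≤ t ∨ t ≤ z) → z ∈ s := by
  classical
  induction h with
  | base x hx =>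
    refine ⟨{x}, by simp, by simp, by simp, by simp, fun z hz _ => ?_⟩
    rw [Finset.mem_singleton]
    exact le_antisymm hz (hx hz)
  | step x y n hxy _ ih =>
    obtain ⟨s, h1, h2, h3, h4, h5⟩ := ih
    have hys : y ∉ s := fun h => absurd (h3 y h) (not_le_of_gt hxy.lt)
    refine ⟨insert y s, by rw [Finset.card_insert_of_notMem hys, h1],
      Finset.mem_insert_self _ _, fun z hz => ?_, ?_, fun z hz ht => ?_⟩
    · rcases Finset.mem_insert.1 hz with rfl | hz
      · exact le_rfl
      · exact (h3 z hz).trans hxy.le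
    · rw [Finset.coe_insert]
      refine h4.insert fun b hb _ => Or.inr ((h3 b hb).trans hxy.le)
    · have hzx := ht x (Finset.mem_insert_of_mem h2)
      rcases hzx with hzx | hzx
      · exact Finset.mem_insert_of_mem
          (h5 z hzx fun t ht' => ht t (Finset.mem_insert_of_mem ht'))
      · rcases hz.eq_or_lt with rfl | hlt
        · exact Finset.mem_insert_self _ _
        · rcases hzx.eq_or_lt with rfl | hlt'
          · exact Finset.mem_insert_of_mem h2
          · exact absurd hlt (hxy.2 hlt')

/-- A lower and an upper saturated chain at `x` form a maximal chain. -/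
lemma exists_maxChain {x : V} {n m : ℕ} (h : DnC x n) (h' : UpC x m) :
    ∃ s : Finset V, s.card + 1 = n + m ∧ IsMaxChain (· ≤ ·) (s : Set V) := by
  classical
  obtain ⟨s, h1, h2, h3, h4, h5⟩ := h.set
  obtain ⟨t, k1, k2, k3, k4, k5⟩ := h'.set
  refine ⟨s ∪ t, ?_, ?_, ?_⟩
  · have hst : s ∩ t = {x} := by
      ext z
      rw [Finset.mem_inter, Finset.mem_singleton]
      constructor
      · rintro ⟨hz, hz'⟩
        exact le_antisymm (h3 z hz) (k3 z hz')
      · rintro rfl
        exact ⟨h2, k2⟩
    have := Finset.card_union_add_card_inter s t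
    rw [hst, Finset.card_singleton, h1, k1] at this
    exact this
  · rw [Finset.coe_union]
    intro a ha b hb hab
    rcases ha with ha | ha <;> rcases hb with hb | hb
    · exact h4 ha hb hab
    · exact Or.inl ((h3 a ha).trans (k3 b hb))
    · exact Or.inr ((h3 b hb).trans (k3 a ha))
    · exact k4 ha hb hab
  · intro u hu hsu
    refine Set.Subset.antisymm hsu fun z hz => ?_
    have hcomp : ∀ w ∈ s ∪ t, z ≤ w ∨ w ≤ z := fun w hw =>
      hu.total hz (hsu (Finset.mem_coe.2 hw))
    rw [Finset.mem_coe, Finset.mem_union]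
    rcases hcomp x (Finset.mem_union_left _ h2) with hzx | hzx
    · exact Or.inl (h5 z hzx fun w hw => hcomp w (Finset.mem_union_left _ hw))
    · exact Or.inr (k5 z hzx fun w hw => hcomp w (Finset.mem_union_right _ hw))

variable [Fintype V]

lemma exists_UpC (x : V) : ∃ n, UpC x n := by
  classical
  induction x using (inferInstance : WellFoundedGT V).wf.induction with
  | _ x ih =>
    by_cases hx : IsMax x
    · exact ⟨1, UpC.base x hx⟩
    · rw [isMax_iff_forall_not_lt] at hx
      push Not at hx
      obtain ⟨z, hz⟩ := hx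
      obtain ⟨y, hy, -⟩ := exists_covBy_le_of_lt hz
      obtain ⟨n, hn⟩ := ih y hy.lt
      exact ⟨n + 1, UpC.step x y n hy hn⟩

lemma exists_DnC (x : V) : ∃ n, DnC x n := by
  classical
  induction x using (inferInstance : WellFoundedLT V).wf.induction with
  | _ x ih =>
    by_cases hx : IsMin x
    · exact ⟨1, DnC.base x hx⟩
    · rw [isMin_iff_forall_not_lt] at hx
      push Not at hx
      obtain ⟨z, hz⟩ := hx
      obtain ⟨y, -, hy⟩ := exists_le_covBy_of_lt hz
      obtain ⟨n, hn⟩ := ih y hy.lt
      exact ⟨n + 1, DnC.step y x n hy hn⟩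

section Gauge

variable {a : ℕ}

omit [Fintype V] in
lemma UpC.eq_one {x : V} (hx : IsMax x) {n : ℕ} (h : UpC x n) : n = 1 := by
  cases h with
  | base _ _ => rfl
  | step _ y n hxy h => exact absurd hxy.lt hx.not_lt

omit [Fintype V] in
lemma sum_of_maxChain (hB : ∀ s : Finset V, IsMaxChain (· ≤ ·) (s : Set V) →
    s.card = a ∨ s.card = a + 1) {x : V} {n m : ℕ} (h : DnC x n) (h' : UpC x m) :
    n + m = a + 1 ∨ n + m = a + 2 := by
  obtain ⟨s, h1, h2⟩ := exists_maxChain h h'
  rcases hB s h2 with h3 | h3 <;> omega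

omit [Fintype V] in
lemma UpC.pos {x : V} {n : ℕ} (h : UpC x n) : 1 ≤ n := by
  cases h with
  | base x hx => exact le_rfl
  | step x y n hxy h => omega

omit [Fintype V] in
lemma DnC.pos {x : V} {n : ℕ} (h : DnC x n) : 1 ≤ n := by
  cases h with
  | base x hx => exact le_rfl
  | step x y n hxy h => omega

open Classical in
/-- The longest saturated chain upwards. -/
noncomputable def longU (a : ℕ) (x : V) : ℕ := Nat.findGreatest (UpC x) (a + 1)

open Classical in
/-- The shortest saturated chain upwards. -/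
noncomputable def shortU (x : V) : ℕ := sInf {m | UpC x m}

lemma shortU_spec (x : V) : UpC x (shortU x) := Nat.sInf_mem (s := {m | UpC x m}) (exists_UpC x)

omit [Fintype V] in
lemma shortU_le {x : V} {m : ℕ} (h : UpC x m) : shortU x ≤ m := Nat.sInf_le h

variable (hB : ∀ s : Finset V, IsMaxChain (· ≤ ·) (s : Set V) →
    s.card = a ∨ s.card = a + 1)

include hB

lemma UpC_le {x : V} {m : ℕ} (h : UpC x m) : m ≤ a + 1 := by
  obtain ⟨n, hn⟩ := exists_DnC x
  have h1 := hn.pos
  rcases sum_of_maxChain hB hn h with h2 | h2 <;> omega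

lemma longU_spec (x : V) : UpC x (longU a x) := by
  classical
  obtain ⟨m, hm⟩ := exists_UpC x
  exact Nat.findGreatest_spec (UpC_le hB hm) hm

lemma le_longU {x : V} {m : ℕ} (h : UpC x m) : m ≤ longU a x := by
  classical
  exact Nat.le_findGreatest (UpC_le hB h) h

lemma longU_le_shortU (x : V) : longU a x ≤ shortU x + 1 := by
  obtain ⟨n, hn⟩ := exists_DnC x
  rcases sum_of_maxChain hB hn (longU_spec hB x) with h1 | h1 <;>
    rcases sum_of_maxChain hB hn (shortU_spec x) with h2 | h2 <;> omega

lemma longU_cov {x y : V} (hxy : x ⋖ y) : longU a y + 1 ≤ longU a x :=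
  le_longU hB (UpC.step x y _ hxy (longU_spec hB y))

omit hB in
lemma shortU_cov {x y : V} (hxy : x ⋖ y) : shortU x ≤ shortU y + 1 :=
  shortU_le (UpC.step x y _ hxy (shortU_spec y))

theorem gaugeI_two : GaugeI' (fun x : V => a + 1 - longU a x) a := by
  refine ⟨fun x y hxy => ?_, fun x h1 _ => ?_, fun x h1 _ => ?_⟩
  · have h1 := longU_cov hB hxy
    have h2 := shortU_cov hxy
    have h3 := longU_le_shortU hB x
    have h4 := shortU_le (longU_spec hB y)
    have h5 := UpC_le hB (longU_spec hB x)
    omega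
  · rcases sum_of_maxChain hB (DnC.base x h1) (longU_spec hB x) with h2 | h2 <;> omega
  · have h2 := UpC.eq_one h1 (longU_spec hB x)
    simp only [h2]
    omega

theorem gaugeD_two : GaugeD (fun x : V => a + 1 - shortU x) (a + 1) := by
  refine ⟨fun x y hxy => ?_, fun x h1 => ?_, fun x h1 => ?_⟩
  · have h1 := longU_cov hB hxy
    have h2 := shortU_cov hxy
    have h3 := longU_le_shortU hB x
    have h4 := shortU_le (longU_spec hB y)
    have h5 := UpC_le hB (shortU_spec x)
    omega
  · rcases sum_of_maxChain hB (DnC.base x h1) (shortU_spec x) with h2 | h2 <;> omega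
  · have h2 := UpC.eq_one h1 (shortU_spec x)
    simp only [h2]
    omega

end Gauge

end TwoLengths

/-- Every finite poset all of whose maximal chains have `a` or `a + 1` elements has unimodal
descent numbers. -/
theorem unimodal_of_twoLengths (α : Type) [Fintype α] [PartialOrder α]
    (f : α ≃ Fin (Fintype.card α)) (hf : ∀ x y : α, x < y → f x < f y) (a : ℕ)
    (hB : ∀ s : Finset α, IsMaxChain (· ≤ ·) (s : Set α) → s.card = a ∨ s.card = a + 1) :
    ∃ m : ℕ, ∀ k : ℕ, (k < m → wnum α f k ≤ wnum α f (k + 1)) ∧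
      (m ≤ k → wnum α f (k + 1) ≤ wnum α f k) :=
  gauge_theorem α f hf _ _ a (a + 1) (gaugeI_two hB) (gaugeD_two hB) (Or.inl (by omega))

end Pool.GT34
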