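import Mathlib

set_option autoImplicit false

/-!
# Definitions for the gauge theorem (MP_dcdbc5_co), owner helper34

See BLUEPRINT.md in this folder.
-/

open Polynomial

namespace Pool.GT34

/-! ## Cones of sums of intervals -/

/-- `1 + X + ... + X^l`. -/
noncomputable def geo (l : ℕ) : ℕ[X] := ∑ k ∈ Finset.range (l + 1), X ^ k

/-- Sums of interval polynomials `X^i + ... + X^(i+l)` with `s ≤ 2 i + l`. -/
noncomputable def Up (s : ℤ) : AddSubmonoid ℕ[X] :=
  AddSubmonoid.closure {h | ∃ i l : ℕ, s ≤ 2 * (i : ℤ) + l ∧ h = X ^ i * geo l}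

/-- Sums of interval polynomials `X^i + ... + X^(i+l)` with `2 i + l ≤ s`. -/
noncomputable def Lo (s : ℤ) : AddSubmonoid ℕ[X] :=
  AddSubmonoid.closure {h | ∃ i l : ℕ, 2 * (i : ℤ) + l ≤ s ∧ h = X ^ i * geo l}

/-- The value at `N` of the expansion `∑ k, h_k * choose (N - k + p) p`. -/
noncomputable def ev (p : ℕ) (h : ℕ[X]) (N : ℕ) : ℕ :=
  ∑ k ∈ Finset.range (N + 1), h.coeff k * Nat.choose (N - k + p) p

/-! ## The recursion over linear extensions -/

section Rec

variable {V : Type} [PartialOrder V]

open Classical in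
/-- The minimal elements of a finite set. -/
noncomputable def mins (S : Finset V) : Finset V := S.filter (fun y => ∀ z ∈ S, ¬ z < y)

open Classical in
/-- Remove one element. -/
noncomputable def del (S : Finset V) (y : V) : Finset V := S.erase y

open Classical in
/-- Set difference. -/
noncomputable def sdf (S B : Finset V) : Finset V := S \ B

open Classical in
/-- The weight of the step from `x` to `y`: a factor `X` for a descent. -/
noncomputable def st (D : V → V → Prop) (x y : V) : ℕ[X] := if D x y then X else 1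

/-- Auxiliary recursion with fuel `n`. -/
noncomputable def Gf (D : V → V → Prop) : ℕ → V → Finset V → ℕ[X]
  | 0, _, _ => 1
  | n + 1, x, S => ∑ y ∈ mins S, st D x y * Gf D n y (del S y)

/-- Sum over the linear extensions of `S` of `X ^ des`, where a start `x` is put in front. -/
noncomputable def G (D : V → V → Prop) (x : V) (S : Finset V) : ℕ[X] := Gf D S.card x S

/-- Sum over the linear extensions of the nonempty set `S` of `X ^ des`. (`0` for `S = ∅`.) -/
noncomputable def W (D : V → V → Prop) (S : Finset V) : ℕ[X] :=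
  ∑ y ∈ mins S, G D y (del S y)

open Classical in
/-- The part of `W` starting in the class other than `c`, with a factor `X` when `c = true`
(`true` is the class with the high labels); `1` for the empty set. -/
noncomputable def Z (D : V → V → Prop) (cl : V → Bool) (c : Bool) (S : Finset V) : ℕ[X] :=
  if S = ∅ then 1
  else (if c = true then X else 1) *
    ∑ y ∈ (mins S).filter (fun y => cl y = !c), G D y (del S y)

open Classical in
/-- The lower subsets of `S` inside the class `c` (the empty set included). -/
noncomputable def lows (cl : V → Bool) (c : Bool) (S : Finset V) : Finset (Finset V) :=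
  S.powerset.filter (fun B => (∀ y ∈ B, cl y = c) ∧ ∀ y ∈ B, ∀ z ∈ S, z < y → z ∈ B)

/-- Descents for a labelling. -/
def Dl (ω : V → ℤ) : V → V → Prop := fun x y => ω y < ω x

/-- The number of `(P, ω)`-partitions with values in `[0, N]` (increasing convention). -/
noncomputable def Om (ω : V → ℤ) (N : ℤ) : ℕ :=
  Nat.card {f : V → ℤ // (∀ x, 0 ≤ f x ∧ f x ≤ N) ∧
    ∀ x y, x < y → f x ≤ f y ∧ (ω y < ω x → f x < f y)}

end Rec

/-! ## Basic facts -/

section Basic

variable {V : Type} [PartialOrder V]

lemma mem_mins {S : Finset V} {y : V} : y ∈ mins S ↔ y ∈ S ∧ ∀ z ∈ S, ¬ z < y := by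
  classical
  simp [mins]

omit [PartialOrder V] in
lemma mem_del {S : Finset V} {y z : V} : z ∈ del S y ↔ z ≠ y ∧ z ∈ S := by
  classical
  simp [del]

omit [PartialOrder V] in
lemma mem_sdf {S B : Finset V} {z : V} : z ∈ sdf S B ↔ z ∈ S ∧ z ∉ B := by
  classical
  simp [sdf]

lemma mem_lows {cl : V → Bool} {c : Bool} {S B : Finset V} :
    B ∈ lows cl c S ↔ B ⊆ S ∧ (∀ y ∈ B, cl y = c) ∧ ∀ y ∈ B, ∀ z ∈ S, z < y → z ∈ B := by
  classical
  simp [lows, Finset.mem_powerset]

omit [PartialOrder V] in
lemma card_del {S : Finset V} {y : V} (hy : y ∈ S) : (del S y).card + 1 = S.card := by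
  classical
  exact Finset.card_erase_add_one hy

omit [PartialOrder V] in
lemma card_sdf {S B : Finset V} (h : B ⊆ S) : (sdf S B).card + B.card = S.card := by
  classical
  exact Finset.card_sdiff_add_card_eq_card h

lemma mins_nonempty {S : Finset V} (hS : S.Nonempty) : (mins S).Nonempty := by
  obtain ⟨m, hm⟩ := S.exists_minimal hS
  refine ⟨m, mem_mins.2 ⟨hm.1, fun z hz hlt => ?_⟩⟩
  exact absurd (hm.2 hz hlt.le) (not_le_of_gt hlt)

lemma G_empty (D : V → V → Prop) (x : V) : G D x ∅ = 1 := rfl

lemma G_rec (D : V → V → Prop) (x : V) {S : Finset V} (hS : S.Nonempty) :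
    G D x S = ∑ y ∈ mins S, st D x y * G D y (del S y) := by
  have h1 : S.card = (S.card - 1) + 1 := by
    have := hS.card_pos
    omega
  unfold G
  rw [h1, Gf]
  refine Finset.sum_congr rfl fun y hy => ?_
  have h2 := card_del (mem_mins.1 hy).1
  have h3 : (del S y).card = S.card - 1 := by omega
  rw [h3]

lemma Z_empty (D : V → V → Prop) (cl : V → Bool) (c : Bool) : Z D cl c ∅ = 1 := by
  simp [Z]

end Basic

end Pool.GT34
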