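import Pool.Agent.GT34.Main

set_option autoImplicit false

/-!
# GT34/Iso: the first half with isolated points exempt from the boundary conditions
-/

open Polynomial

namespace Pool.GT34

/-- Gauge with increments `1` or `2` on covers; the boundary conditions are not asked for isolated
points. -/
structure GaugeI' {V : Type} [PartialOrder V] (κ : V → ℕ) (T : ℕ) : Prop where
  cov : ∀ x y, x ⋖ y → κ x + 1 ≤ κ y ∧ κ y ≤ κ x + 2
  bot : ∀ x, IsMin x → ¬ IsMax x → κ x ≤ 1
  top : ∀ x, IsMax x → ¬ IsMin x → κ x = T ∨ κ x + 1 = T

lemma coeff_W_eq_zero {V : Type} [PartialOrder V] (D : V → V → Prop) (S : Finset V) {k : ℕ}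
    (hk : S.card ≤ k) (hS : S.Nonempty) : (W D S).coeff k = 0 := by
  unfold W
  rw [finsetSum_coeff]
  refine Finset.sum_eq_zero fun y hy => ?_
  have hc := card_del (mem_mins.1 hy).1
  have h1 := natDegree_Gf_le D (del S y).card y (del S y)
  exact coeff_eq_zero_of_natDegree_lt (by unfold G; omega)

theorem W_isolated_Up {V : Type} [Fintype V] [PartialOrder V] (x : V)
    (hx : ∀ y, ¬ y < x ∧ ¬ x < y) (ω : V → ℤ)
    (hi : Function.Injective ω) [Fintype {y : V // y ≠ x}] [Nonempty {y : V // y ≠ x}] {T : ℕ}
    (hW : W (Dl (fun y : {y : V // y ≠ x} => ω y)) Finset.univ ∈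
      Up ((Fintype.card {y : V // y ≠ x} : ℤ) - 1 - T)) :
    W (Dl ω) (Finset.univ : Finset V) ∈ Up ((Fintype.card V : ℤ) - 1 - T) := by
  classical
  have : Nonempty V := ⟨x⟩
  have hpos : 0 < Fintype.card {y : V // y ≠ x} := Fintype.card_pos
  obtain ⟨g, hg, e⟩ := exists_Tp_Up (p := Fintype.card {y : V // y ≠ x}) (by omega) hW (by
    intro k hk
    exact coeff_W_eq_zero _ _ (by rw [Finset.card_univ]; omega) Finset.univ_nonempty)
  have hi' : Function.Injective (fun y : {y : V // y ≠ x} => ω y) :=
    hi.comp Subtype.val_injective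
  have hc : Fintype.card V = Fintype.card {y : V // y ≠ x} + 1 := by
    have h2 : 0 < Fintype.card V := Fintype.card_pos
    have h3 : Fintype.card {y : V // y ≠ x} = Fintype.card V - 1 := by
      rw [Fintype.card_subtype, Finset.filter_ne' Finset.univ x, Finset.card_erase_of_mem
        (Finset.mem_univ x), Finset.card_univ]
    omega
  have h1 : W (Dl ω) (Finset.univ : Finset V) = g := by
    apply ev_inj (p := Fintype.card V)
    intro N
    rw [← Om_eq_ev ω hi N, Om_isolated x hx, hc, e, Om_eq_ev _ hi' N]
  rw [h1, hc]
  refine Up_mono ?_ hg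
  push_cast
  omega

theorem main_I' : ∀ (n : ℕ) (V : Type) [Fintype V] [PartialOrder V] [Nonempty V],
    Fintype.card V = n → ∀ ω : V → ℤ, Function.Injective ω → (∀ x y, x < y → ω x < ω y) →
    ∀ (κ : V → ℕ) (T : ℕ), GaugeI' κ T →
    W (Dl ω) (Finset.univ : Finset V) ∈ Up ((n : ℤ) - 1 - T) := by
  classical
  intro n
  induction n with
  | zero =>
    intro V _ _ _ hn
    have : 0 < Fintype.card V := Fintype.card_pos
    omega
  | succ n ih =>
    intro V _ _ _ hn ω hi hω κ T hκ
    by_cases hiso : ∃ x : V, ∀ y, ¬ y < x ∧ ¬ x < y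
    · obtain ⟨x, hx⟩ := hiso
      have hc : Fintype.card {y : V // y ≠ x} = n := by
        rw [Fintype.card_subtype, Finset.filter_ne' Finset.univ x, Finset.card_erase_of_mem
          (Finset.mem_univ x), Finset.card_univ, hn]
        omega
      rcases Nat.eq_zero_or_pos n with h0 | hpos
      · -- one point
        subst h0
        have h1 := snat 1 V hn ω hi hω
        -- `W = 1`
        obtain ⟨a, ha⟩ := Fintype.card_eq_one_iff.1 hn
        have e1 : mins (Finset.univ : Finset V) = {a} := by
          ext z
          rw [mem_mins, Finset.mem_singleton]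
          constructor
          · exact fun _ => ha z
          · rintro rfl
            exact ⟨Finset.mem_univ _, fun y _ => by rw [ha y]; exact lt_irrefl _⟩
        have e2 : del (Finset.univ : Finset V) a = ∅ := by
          ext z
          rw [mem_del]
          simp [ha z]
        rw [W, e1, Finset.sum_singleton, e2, G_empty]
        refine Up_mono ?_ one_mem_Up
        push_cast
        omega
      · have hne : Nonempty {y : V // y ≠ x} := by
          rw [← Fintype.card_pos_iff, hc]
          exact hpos
        have hlt : ∀ y z : {y : V // y ≠ x}, y < z ↔ (y : V) < z := fun y z => Iff.rfl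
        have hmin : ∀ y : {y : V // y ≠ x}, IsMin y ↔ IsMin (y : V) := by
          intro y
          constructor
          · intro h w hw
            by_cases hwx : w = x
            · rcases hw.eq_or_lt with h2 | h2
              · exact h2.ge
              · exact absurd (hwx ▸ h2) (hx _).2
            · exact h (b := ⟨w, hwx⟩) hw
          · intro h w hw
            exact h hw
        have hmax : ∀ y : {y : V // y ≠ x}, IsMax y ↔ IsMax (y : V) := by
          intro y
          constructor
          · intro h w hw
            by_cases hwx : w = x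
            · rcases hw.eq_or_lt with h2 | h2
              · exact h2.symm.le
              · exact absurd (hwx ▸ h2) (hx _).1
            · exact h (b := ⟨w, hwx⟩) hw
          · intro h w hw
            exact h hw
        have hcov : ∀ y z : {y : V // y ≠ x}, y ⋖ z → (y : V) ⋖ z := by
          intro y z hyz
          refine ⟨hyz.lt, fun w h1 h2 => ?_⟩
          have hwx : w ≠ x := fun h => (hx _).1 (h ▸ h1)
          exact hyz.2 (c := ⟨w, hwx⟩) h1 h2
        have hκ' : GaugeI' (fun y : {y : V // y ≠ x} => κ y) T := by
          refine ⟨fun y z hyz => hκ.cov y z (hcov y z hyz), fun y h1 h2 => ?_, fun y h1 h2 => ?_⟩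
          · exact hκ.bot y ((hmin y).1 h1) (fun h => h2 ((hmax y).2 h))
          · exact hκ.top y ((hmax y).1 h1) (fun h => h2 ((hmin y).2 h))
        have h2 := ih {y : V // y ≠ x} hc (fun y => ω y) (hi.comp Subtype.val_injective)
          (fun y z hyz => hω y z hyz) (fun y => κ y) T hκ'
        rw [← hc] at h2
        have h3 := W_isolated_Up x hx ω hi h2
        rwa [hn] at h3
    · push Not at hiso
      have hminmax : ∀ x : V, IsMin x → ¬ IsMax x := by
        intro x hx hx'
        obtain ⟨y, hy⟩ := hiso x
        by_cases h2 : y < x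
        · exact hx.not_lt h2
        · exact hx'.not_lt (hy h2)
      have hκ' : GaugeI κ T := ⟨hκ.cov, fun x hx => hκ.bot x hx (hminmax x hx),
        fun x hx => hκ.top x hx (fun h => hminmax x h hx)⟩
      have h3 := main_I ω hi hω hκ'
      rwa [hn] at h3

end Pool.GT34
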