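import Pool.Agent.GT34.SNat

set_option autoImplicit false

/-!
# GT34/Main: the two halves of the gauge theorem
-/

open Polynomial

namespace Pool.GT34

/-- Gauge with increments `1` or `2` on covers. -/
structure GaugeI {V : Type} [PartialOrder V] (κ : V → ℕ) (T : ℕ) : Prop where
  cov : ∀ x y, x ⋖ y → κ x + 1 ≤ κ y ∧ κ y ≤ κ x + 2
  bot : ∀ x, IsMin x → κ x ≤ 1
  top : ∀ x, IsMax x → κ x = T ∨ κ x + 1 = T

/-- Gauge with increments `0` or `1` on covers. -/
structure GaugeD {V : Type} [PartialOrder V] (κ : V → ℕ) (T : ℕ) : Prop where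
  cov : ∀ x y, x ⋖ y → κ x ≤ κ y ∧ κ y ≤ κ x + 1
  bot : ∀ x, IsMin x → κ x ≤ 1
  top : ∀ x, IsMax x → κ x = T ∨ κ x + 1 = T

section Odd

variable {V : Type} [Fintype V] [PartialOrder V] [Nonempty V]

theorem main_D_odd (ω : V → ℤ) (hi : Function.Injective ω) (hω : ∀ x y, x < y → ω x < ω y)
    {κ : V → ℕ} {m : ℕ} (hκ : GaugeD κ (2 * m + 1)) :
    W (Dl ω) (Finset.univ : Finset V) ∈ Lo ((Fintype.card V : ℤ) - 2 * m) := by
  classical
  obtain ⟨C, hC⟩ := exists_spread ω
  set cl : V → Bool := fun x => decide (κ x % 2 = 1) with hcl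
  set ω' : V → ℤ := fun x => if κ x % 2 = 1 then ω x + C else ω x with hω'
  have hclt : ∀ x, cl x = true ↔ κ x % 2 = 1 := by intro x; simp [hcl]
  have hclf : ∀ x, cl x = false ↔ ¬ κ x % 2 = 1 := by intro x; simp [hcl]
  have hi' : Function.Injective ω' := by
    intro x y hxy
    simp only [hω'] at hxy
    have h2 := hC x y
    have h3 := hC y x
    split_ifs at hxy
    · exact hi (by omega)
    · omega
    · omega
    · exact hi hxy
  have hD : ∀ x y, cl x ≠ cl y → (Dl ω' x y ↔ cl x = true) := by
    intro x y hxy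
    change ω' y < ω' x ↔ _
    have h2 := hC x y
    have h3 := hC y x
    rw [hclt]
    simp only [hω']
    by_cases hx : κ x % 2 = 1
    · have hy : ¬ κ y % 2 = 1 := fun hy => hxy (by rw [(hclt x).2 hx, (hclt y).2 hy])
      rw [if_pos hx, if_neg hy]
      exact ⟨fun _ => hx, fun _ => h3⟩
    · have hy : κ y % 2 = 1 := by
        by_contra hy
        exact hxy (by rw [(hclf x).2 hx, (hclf y).2 hy])
      rw [if_neg hx, if_pos hy]
      constructor
      · intro h4; omega
      · intro h4; exact absurd h4 hx
  have hblocks : BlocksLo (Dl ω') cl := by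
    intro B hB c hc
    rw [W_sub]
    have : Nonempty {x // x ∈ B} := ⟨⟨hB.choose, hB.choose_spec⟩⟩
    have hcard : Fintype.card {x // x ∈ B} = B.card := Fintype.card_coe B
    refine snat B.card {x // x ∈ B} hcard (fun x => ω' x)
      (hi'.comp Subtype.val_injective) (fun x y hxy => ?_)
    have h1 := hc x x.2
    have h2 := hc y y.2
    have h3 := hω x y hxy
    simp only [hω']
    by_cases hx : κ x % 2 = 1
    · have hy : κ y % 2 = 1 := (hclt _).1 (h2.trans (h1.symm.trans ((hclt _).2 hx)))
      rw [if_pos hx, if_pos hy]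
      omega
    · have hy : ¬ κ y % 2 = 1 := (hclf _).1 (h2.trans (h1.symm.trans ((hclf _).2 hx)))
      rw [if_neg hx, if_neg hy]
      exact h3
  have h5 := cone_Lo hD hblocks Finset.univ
  have h6 := W_gauge ω ω' hω hi hi' (fun x => κ x / 2) m (by
    intro x y hxy
    have h1 := hκ.cov x y hxy
    have h2 := hω x y hxy.lt
    have h3 := hC x y
    have h4 := hC y x
    simp only [hω']
    split_ifs <;> omega)
    (fun x hx => by have := hκ.bot x hx; omega) (fun x hx => by have := hκ.top x hx; omega)
  rw [h6, Finset.card_univ] at h5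
  exact Lo_div h5

theorem main_I_odd (ω : V → ℤ) (hi : Function.Injective ω) (hω : ∀ x y, x < y → ω x < ω y)
    {κ : V → ℕ} {m : ℕ} (hκ : GaugeI κ (2 * m + 1)) :
    W (Dl ω) (Finset.univ : Finset V) ∈ Up ((Fintype.card V : ℤ) - 2 - 2 * m) := by
  classical
  obtain ⟨C, hC⟩ := exists_spread ω
  set cl : V → Bool := fun x => decide (κ x % 2 = 1) with hcl
  set ω' : V → ℤ := fun x => if κ x % 2 = 1 then C - ω x else - ω x with hω'
  have hclt : ∀ x, cl x = true ↔ κ x % 2 = 1 := by intro x; simp [hcl]
  have hclf : ∀ x, cl x = false ↔ ¬ κ x % 2 = 1 := by intro x; simp [hcl]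
  have hi' : Function.Injective ω' := by
    intro x y hxy
    simp only [hω'] at hxy
    have h2 := hC x y
    have h3 := hC y x
    split_ifs at hxy
    · exact hi (by omega)
    · omega
    · omega
    · exact hi (by omega)
  have hD : ∀ x y, cl x ≠ cl y → (Dl ω' x y ↔ cl x = true) := by
    intro x y hxy
    change ω' y < ω' x ↔ _
    have h2 := hC x y
    have h3 := hC y x
    rw [hclt]
    simp only [hω']
    by_cases hx : κ x % 2 = 1
    · have hy : ¬ κ y % 2 = 1 := fun hy => hxy (by rw [(hclt x).2 hx, (hclt y).2 hy])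
      rw [if_pos hx, if_neg hy]
      exact ⟨fun _ => hx, fun _ => by omega⟩
    · have hy : κ y % 2 = 1 := by
        by_contra hy
        exact hxy (by rw [(hclf x).2 hx, (hclf y).2 hy])
      rw [if_neg hx, if_pos hy]
      constructor
      · intro h4; omega
      · intro h4; exact absurd h4 hx
  have hblocks : BlocksUp (Dl ω') cl := by
    intro B hB c hc
    rw [W_sub]
    have : Nonempty {x // x ∈ B} := ⟨⟨hB.choose, hB.choose_spec⟩⟩
    have hcard : Fintype.card {x // x ∈ B} = B.card := Fintype.card_coe B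
    rw [← hcard]
    refine santi {x // x ∈ B} (fun x => ω' x)
      (hi'.comp Subtype.val_injective) (fun x y hxy => ?_)
    have h1 := hc x x.2
    have h2 := hc y y.2
    have h3 := hω x y hxy
    simp only [hω']
    by_cases hx : κ x % 2 = 1
    · have hy : κ y % 2 = 1 := (hclt _).1 (h2.trans (h1.symm.trans ((hclt _).2 hx)))
      rw [if_pos hx, if_pos hy]
      omega
    · have hy : ¬ κ y % 2 = 1 := (hclf _).1 (h2.trans (h1.symm.trans ((hclf _).2 hx)))
      rw [if_neg hx, if_neg hy]
      omega
  have h5 := cone_Up hD hblocks Finset.univ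
  have h6 := W_gauge ω ω' hω hi hi' (fun x => κ x / 2) m (by
    intro x y hxy
    have h1 := hκ.cov x y hxy
    have h2 := hω x y hxy.lt
    have h3 := hC x y
    have h4 := hC y x
    simp only [hω']
    split_ifs <;> omega)
    (fun x hx => by have := hκ.bot x hx; omega) (fun x hx => by have := hκ.top x hx; omega)
  rw [h6, Finset.card_univ] at h5
  exact Up_div h5

end Odd

section Even

variable {V : Type} [PartialOrder V]

/-- Extension of a gauge to `WithTop V`. -/
def kt (κ : V → ℕ) (c : ℕ) : WithTop V → ℕ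
  | ⊤ => c
  | (x : V) => κ x

lemma isMin_of_coe {x : V} (h : IsMin (x : WithTop V)) : IsMin x :=
  fun y hy => WithTop.coe_le_coe.1 (h (WithTop.coe_le_coe.2 hy))

lemma not_isMax_coe (x : V) : ¬ IsMax (x : WithTop V) :=
  fun h => h.not_lt (WithTop.coe_lt_top x)

lemma GaugeD.withTop [Nonempty V] {κ : V → ℕ} {T : ℕ} (hκ : GaugeD κ T) :
    GaugeD (kt κ T) (T + 1) where
  cov := by
    intro x y hxy
    induction x using WithTop.recTopCoe with
    | top => exact absurd hxy.lt (by simp)
    | coe x =>
      induction y using WithTop.recTopCoe with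
      | top =>
        have h1 := hκ.top x (WithTop.coe_covBy_top.1 hxy)
        change κ x ≤ T ∧ T ≤ κ x + 1
        omega
      | coe y => exact hκ.cov x y (WithTop.coe_covBy_coe.1 hxy)
  bot := by
    intro x hx
    induction x using WithTop.recTopCoe with
    | top =>
      obtain ⟨y⟩ := (inferInstance : Nonempty V)
      exact absurd (WithTop.coe_lt_top y) hx.not_lt
    | coe x => exact hκ.bot x (isMin_of_coe hx)
  top := by
    intro x hx
    induction x using WithTop.recTopCoe with
    | top => right; rfl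
    | coe x => exact absurd hx (not_isMax_coe x)

lemma GaugeI.withTop [Nonempty V] {κ : V → ℕ} {T : ℕ} (hκ : GaugeI κ T) :
    GaugeI (kt κ (T + 1)) (T + 1) where
  cov := by
    intro x y hxy
    induction x using WithTop.recTopCoe with
    | top => exact absurd hxy.lt (by simp)
    | coe x =>
      induction y using WithTop.recTopCoe with
      | top =>
        have h1 := hκ.top x (WithTop.coe_covBy_top.1 hxy)
        change κ x + 1 ≤ T + 1 ∧ T + 1 ≤ κ x + 2
        omega
      | coe y => exact hκ.cov x y (WithTop.coe_covBy_coe.1 hxy)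
  bot := by
    intro x hx
    induction x using WithTop.recTopCoe with
    | top =>
      obtain ⟨y⟩ := (inferInstance : Nonempty V)
      exact absurd (WithTop.coe_lt_top y) hx.not_lt
    | coe x => exact hκ.bot x (isMin_of_coe hx)
  top := by
    intro x hx
    induction x using WithTop.recTopCoe with
    | top => left; rfl
    | coe x => exact absurd hx (not_isMax_coe x)

omit [PartialOrder V] in
lemma wt_injective {ω : V → ℤ} (hi : Function.Injective ω) {c : ℤ} (hc : ∀ x, ω x < c) :
    Function.Injective (wt ω c) := by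
  intro x y hxy
  induction x using WithTop.recTopCoe with
  | top =>
    induction y using WithTop.recTopCoe with
    | top => rfl
    | coe y => exact absurd hxy (hc y).ne'
  | coe x =>
    induction y using WithTop.recTopCoe with
    | top => exact absurd hxy (hc x).ne
    | coe y => exact congrArg _ (hi hxy)

lemma wt_natural {ω : V → ℤ} (hω : ∀ x y, x < y → ω x < ω y) {c : ℤ} (hc : ∀ x, ω x < c) :
    ∀ x y, x < y → wt ω c x < wt ω c y := by
  intro x y hxy
  induction x using WithTop.recTopCoe with
  | top => exact absurd hxy (by simp)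
  | coe x =>
    induction y using WithTop.recTopCoe with
    | top => exact hc x
    | coe y => exact hω x y (WithTop.coe_lt_coe.1 hxy)

variable [Fintype V] [Nonempty V]

omit [PartialOrder V] in
lemma exists_above (ω : V → ℤ) : ∃ c : ℤ, ∀ x, ω x < c := by
  obtain ⟨a, ha⟩ := Finite.exists_max ω
  exact ⟨ω a + 1, fun x => by have := ha x; omega⟩

omit [PartialOrder V] [Nonempty V] in
lemma card_withTop : Fintype.card (WithTop V) = Fintype.card V + 1 :=
  Fintype.card_option

theorem main_D (ω : V → ℤ) (hi : Function.Injective ω) (hω : ∀ x y, x < y → ω x < ω y)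
    {κ : V → ℕ} {T : ℕ} (hκ : GaugeD κ T) :
    W (Dl ω) (Finset.univ : Finset V) ∈ Lo ((Fintype.card V : ℤ) + 1 - T) := by
  classical
  rcases Nat.even_or_odd' T with ⟨m, rfl | rfl⟩
  · obtain ⟨c, hc⟩ := exists_above ω
    have h1 := main_D_odd (V := WithTop V) (wt ω c) (wt_injective hi hc) (wt_natural hω hc)
      (hκ.withTop)
    rw [W_top ω hc, card_withTop] at h1
    refine Lo_mono ?_ h1
    push_cast; omega
  · refine Lo_mono ?_ (main_D_odd ω hi hω hκ)
    push_cast; omega

theorem main_I (ω : V → ℤ) (hi : Function.Injective ω) (hω : ∀ x y, x < y → ω x < ω y)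
    {κ : V → ℕ} {T : ℕ} (hκ : GaugeI κ T) :
    W (Dl ω) (Finset.univ : Finset V) ∈ Up ((Fintype.card V : ℤ) - 1 - T) := by
  classical
  rcases Nat.even_or_odd' T with ⟨m, rfl | rfl⟩
  · obtain ⟨c, hc⟩ := exists_above ω
    have h1 := main_I_odd (V := WithTop V) (wt ω c) (wt_injective hi hc) (wt_natural hω hc)
      (hκ.withTop)
    rw [W_top ω hc, card_withTop] at h1
    refine Up_mono ?_ h1
    push_cast; omega
  · refine Up_mono ?_ (main_I_odd ω hi hω hκ)
    push_cast; omega

end Even

end Pool.GT34
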