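import Pool.Agent.GT34.Defs

set_option autoImplicit false

/-!
# GT34/Poly: the cones `Up` and `Lo`
-/

open Polynomial

namespace Pool.GT34

lemma Up_mono {s s' : ℤ} (h : s' ≤ s) : Up s ≤ Up s' := by
  apply AddSubmonoid.closure_mono
  rintro g ⟨i, l, h1, rfl⟩
  exact ⟨i, l, h.trans h1, rfl⟩

lemma Lo_mono {s s' : ℤ} (h : s ≤ s') : Lo s ≤ Lo s' := by
  apply AddSubmonoid.closure_mono
  rintro g ⟨i, l, h1, rfl⟩
  exact ⟨i, l, h1.trans h, rfl⟩

lemma geo_zero : geo 0 = 1 := by simp [geo]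

lemma one_mem_Up : (1 : ℕ[X]) ∈ Up 0 :=
  AddSubmonoid.subset_closure ⟨0, 0, by simp, by simp [geo_zero]⟩

lemma one_mem_Lo : (1 : ℕ[X]) ∈ Lo 0 :=
  AddSubmonoid.subset_closure ⟨0, 0, by simp, by simp [geo_zero]⟩

/-- `X ^ m` shifts by `2 m`. -/
lemma X_pow_mul_mem_Up {s : ℤ} {h : ℕ[X]} (hh : h ∈ Up s) (m : ℕ) :
    X ^ m * h ∈ Up (s + 2 * m) := by
  induction hh using AddSubmonoid.closure_induction with
  | mem x hx =>
    obtain ⟨i, l, h1, rfl⟩ := hx
    refine AddSubmonoid.subset_closure ⟨m + i, l, ?_, ?_⟩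
    · push_cast; linarith
    · rw [pow_add, mul_assoc]
  | zero => simp
  | add x y _ _ hx hy => rw [mul_add]; exact add_mem hx hy

/-- `X ^ m` shifts by `2 m`. -/
lemma X_pow_mul_mem_Lo {s : ℤ} {h : ℕ[X]} (hh : h ∈ Lo s) (m : ℕ) :
    X ^ m * h ∈ Lo (s + 2 * m) := by
  induction hh using AddSubmonoid.closure_induction with
  | mem x hx =>
    obtain ⟨i, l, h1, rfl⟩ := hx
    refine AddSubmonoid.subset_closure ⟨m + i, l, ?_, ?_⟩
    · push_cast; linarith
    · rw [pow_add, mul_assoc]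
  | zero => simp
  | add x y _ _ hx hy => rw [mul_add]; exact add_mem hx hy

/-- The identity behind the products of intervals. -/
lemma geo_succ_mul (m n : ℕ) :
    geo (m + 1) * geo (n + 1) = geo (m + n + 2) + X ^ 1 * (geo m * geo n) := by
  have e1 : geo (m + 1) = 1 + X * geo m := by
    unfold geo
    rw [Finset.sum_range_succ' _ (m + 1), Finset.mul_sum, add_comm]
    simp [pow_succ, mul_comm]
  have e2 : geo (n + 1) = geo n + X ^ (n + 1) := by
    unfold geo
    rw [Finset.sum_range_succ]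
  have e3 : geo (m + n + 2) = geo (n + 1) + X ^ (n + 2) * geo m := by
    unfold geo
    rw [show m + n + 2 + 1 = (n + 1 + 1) + (m + 1) by ring, Finset.sum_range_add, Finset.mul_sum]
    congr 1
    refine Finset.sum_congr rfl fun k _ => ?_
    rw [← pow_add]
  rw [e3, e1, e2]
  ring

lemma geo_mul_geo_mem_Up : ∀ m n : ℕ, geo m * geo n ∈ Up ((m : ℤ) + n)
  | 0, n => by
    rw [geo_zero, one_mul]
    exact AddSubmonoid.subset_closure ⟨0, n, by simp, by simp⟩
  | m + 1, 0 => by
    rw [geo_zero, mul_one]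
    exact AddSubmonoid.subset_closure ⟨0, m + 1, by simp, by simp⟩
  | m + 1, n + 1 => by
    rw [geo_succ_mul]
    refine add_mem (AddSubmonoid.subset_closure ⟨0, m + n + 2, ?_, by simp⟩) ?_
    · push_cast; linarith
    · have := X_pow_mul_mem_Up (geo_mul_geo_mem_Up m n) 1
      refine Up_mono ?_ this
      push_cast; linarith

lemma geo_mul_geo_mem_Lo : ∀ m n : ℕ, geo m * geo n ∈ Lo ((m : ℤ) + n)
  | 0, n => by
    rw [geo_zero, one_mul]
    exact AddSubmonoid.subset_closure ⟨0, n, by simp, by simp⟩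
  | m + 1, 0 => by
    rw [geo_zero, mul_one]
    exact AddSubmonoid.subset_closure ⟨0, m + 1, by simp, by simp⟩
  | m + 1, n + 1 => by
    rw [geo_succ_mul]
    refine add_mem (AddSubmonoid.subset_closure ⟨0, m + n + 2, ?_, by simp⟩) ?_
    · push_cast; linarith
    · have := X_pow_mul_mem_Lo (geo_mul_geo_mem_Lo m n) 1
      refine Lo_mono ?_ this
      push_cast; linarith

lemma mul_mem_Up {s t : ℤ} {g h : ℕ[X]} (hg : g ∈ Up s) (hh : h ∈ Up t) :
    g * h ∈ Up (s + t) := by
  induction hg using AddSubmonoid.closure_induction with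
  | mem x hx =>
    obtain ⟨i, l, h1, rfl⟩ := hx
    induction hh using AddSubmonoid.closure_induction with
    | mem y hy =>
      obtain ⟨i', l', h1', rfl⟩ := hy
      have e : X ^ i * geo l * (X ^ i' * geo l') = X ^ (i + i') * (geo l * geo l') := by
        rw [pow_add]; ring
      rw [e]
      refine Up_mono ?_ (X_pow_mul_mem_Up (geo_mul_geo_mem_Up l l') (i + i'))
      push_cast; linarith
    | zero => simp
    | add x y _ _ hx hy => rw [mul_add]; exact add_mem hx hy
  | zero => simp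
  | add x y _ _ hx hy => rw [add_mul]; exact add_mem hx hy

lemma mul_mem_Lo {s t : ℤ} {g h : ℕ[X]} (hg : g ∈ Lo s) (hh : h ∈ Lo t) :
    g * h ∈ Lo (s + t) := by
  induction hg using AddSubmonoid.closure_induction with
  | mem x hx =>
    obtain ⟨i, l, h1, rfl⟩ := hx
    induction hh using AddSubmonoid.closure_induction with
    | mem y hy =>
      obtain ⟨i', l', h1', rfl⟩ := hy
      have e : X ^ i * geo l * (X ^ i' * geo l') = X ^ (i + i') * (geo l * geo l') := by
        rw [pow_add]; ring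
      rw [e]
      refine Lo_mono ?_ (X_pow_mul_mem_Lo (geo_mul_geo_mem_Lo l l') (i + i'))
      push_cast; linarith
    | zero => simp
    | add x y _ _ hx hy => rw [mul_add]; exact add_mem hx hy
  | zero => simp
  | add x y _ _ hx hy => rw [add_mul]; exact add_mem hx hy

lemma coeff_gen (i l k : ℕ) :
    (X ^ i * geo l : ℕ[X]).coeff k = if i ≤ k ∧ k ≤ i + l then 1 else 0 := by
  rw [coeff_X_pow_mul']
  by_cases h1 : i ≤ k
  · simp only [h1, if_true, true_and, geo]
    rw [finsetSum_coeff]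
    simp only [coeff_X_pow]
    rw [Finset.sum_ite_eq]
    simp only [Finset.mem_range]
    by_cases h2 : k ≤ i + l
    · rw [if_pos (by omega), if_pos h2]
    · rw [if_neg (by omega), if_neg h2]
  · simp [h1]

lemma Up_step {s : ℤ} {h : ℕ[X]} (hh : h ∈ Up s) {k : ℕ} (hk : 2 * (k : ℤ) < s) :
    h.coeff k ≤ h.coeff (k + 1) := by
  induction hh using AddSubmonoid.closure_induction with
  | mem x hx =>
    obtain ⟨i, l, h1, rfl⟩ := hx
    rw [coeff_gen, coeff_gen]
    split_ifs <;> omega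
  | zero => simp
  | add x y _ _ hx hy => rw [coeff_add, coeff_add]; exact add_le_add hx hy

lemma Lo_step {s : ℤ} {h : ℕ[X]} (hh : h ∈ Lo s) {k : ℕ} (hk : s < 2 * ((k : ℤ) + 1)) :
    h.coeff (k + 1) ≤ h.coeff k := by
  induction hh using AddSubmonoid.closure_induction with
  | mem x hx =>
    obtain ⟨i, l, h1, rfl⟩ := hx
    rw [coeff_gen, coeff_gen]
    split_ifs <;> omega
  | zero => simp
  | add x y _ _ hx hy => rw [coeff_add, coeff_add]; exact add_le_add hx hy

lemma X_pow_mul_cancel {m : ℕ} {g h : ℕ[X]} (e : X ^ m * g = X ^ m * h) : g = h := by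
  ext k
  have := congrArg (fun q => q.coeff (k + m)) e
  simpa [coeff_X_pow_mul] using this

lemma Up_div_aux {s : ℤ} {h : ℕ[X]} (m : ℕ) (hh : h ∈ Up s) :
    (∀ k < m, h.coeff k = 0) → ∃ g ∈ Up (s - 2 * m), h = X ^ m * g := by
  induction hh using AddSubmonoid.closure_induction with
  | mem x hx =>
    obtain ⟨i, l, h1, rfl⟩ := hx
    intro h0
    have hi : m ≤ i := by
      by_contra hlt
      have := h0 i (by omega)
      rw [coeff_gen, if_pos ⟨le_rfl, by omega⟩] at this
      exact one_ne_zero this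
    refine ⟨X ^ (i - m) * geo l, AddSubmonoid.subset_closure ⟨i - m, l, ?_, rfl⟩, ?_⟩
    · omega
    · rw [← mul_assoc, ← pow_add, Nat.add_sub_cancel' hi]
  | zero => exact fun _ => ⟨0, zero_mem _, by simp⟩
  | add x y _ _ hx hy =>
    intro h0
    have h1 : ∀ k < m, x.coeff k = 0 ∧ y.coeff k = 0 := by
      intro k hk
      have := h0 k hk
      rw [coeff_add] at this
      omega
    obtain ⟨g, hg, rfl⟩ := hx fun k hk => (h1 k hk).1
    obtain ⟨g', hg', rfl⟩ := hy fun k hk => (h1 k hk).2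
    exact ⟨g + g', add_mem hg hg', by rw [mul_add]⟩

lemma Lo_div_aux {s : ℤ} {h : ℕ[X]} (m : ℕ) (hh : h ∈ Lo s) :
    (∀ k < m, h.coeff k = 0) → ∃ g ∈ Lo (s - 2 * m), h = X ^ m * g := by
  induction hh using AddSubmonoid.closure_induction with
  | mem x hx =>
    obtain ⟨i, l, h1, rfl⟩ := hx
    intro h0
    have hi : m ≤ i := by
      by_contra hlt
      have := h0 i (by omega)
      rw [coeff_gen, if_pos ⟨le_rfl, by omega⟩] at this
      exact one_ne_zero this
    refine ⟨X ^ (i - m) * geo l, AddSubmonoid.subset_closure ⟨i - m, l, ?_, rfl⟩, ?_⟩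
    · omega
    · rw [← mul_assoc, ← pow_add, Nat.add_sub_cancel' hi]
  | zero => exact fun _ => ⟨0, zero_mem _, by simp⟩
  | add x y _ _ hx hy =>
    intro h0
    have h1 : ∀ k < m, x.coeff k = 0 ∧ y.coeff k = 0 := by
      intro k hk
      have := h0 k hk
      rw [coeff_add] at this
      omega
    obtain ⟨g, hg, rfl⟩ := hx fun k hk => (h1 k hk).1
    obtain ⟨g', hg', rfl⟩ := hy fun k hk => (h1 k hk).2
    exact ⟨g + g', add_mem hg hg', by rw [mul_add]⟩

lemma Up_div {s : ℤ} {m : ℕ} {g : ℕ[X]} (h : X ^ m * g ∈ Up s) : g ∈ Up (s - 2 * m) := by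
  obtain ⟨g', hg', e⟩ := Up_div_aux m h (by
    intro k hk
    rw [coeff_X_pow_mul', if_neg (by omega)])
  rwa [X_pow_mul_cancel e]

lemma Lo_div {s : ℤ} {m : ℕ} {g : ℕ[X]} (h : X ^ m * g ∈ Lo s) : g ∈ Lo (s - 2 * m) := by
  obtain ⟨g', hg', e⟩ := Lo_div_aux m h (by
    intro k hk
    rw [coeff_X_pow_mul', if_neg (by omega)])
  rwa [X_pow_mul_cancel e]

/-- Reversal maps `Lo n` to `Up n`. -/
lemma reflect_mem_Up {n : ℕ} {h : ℕ[X]} (hh : h ∈ Lo n) : reflect n h ∈ Up n := by
  induction hh using AddSubmonoid.closure_induction with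
  | mem x hx =>
    obtain ⟨i, l, h1, rfl⟩ := hx
    refine AddSubmonoid.subset_closure ⟨n - (i + l), l, ?_, ?_⟩
    · omega
    · ext k
      rw [coeff_reflect, coeff_gen, coeff_gen]
      by_cases hk : k ≤ n
      · rw [revAt_le hk]
        split_ifs <;> omega
      · rw [revAt_eq_self_of_lt (by omega)]
        split_ifs <;> omega
  | zero => simp
  | add x y _ _ hx hy => rw [reflect_add]; exact add_mem hx hy

/-- Both cones together give unimodality. -/
theorem unimodal_of_cones {s s' : ℤ} {h : ℕ[X]} (hU : h ∈ Up s) (hL : h ∈ Lo s')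
    (hs : s' ≤ s + 3 ∨ (s' = s + 4 ∧ Odd s)) :
    ∃ m : ℕ, ∀ k : ℕ, (k < m → h.coeff k ≤ h.coeff (k + 1)) ∧
      (m ≤ k → h.coeff (k + 1) ≤ h.coeff k) := by
  -- the steps `k` with `2 k < s` go up, those with `2 (k + 1) > s'` go down
  have hup : ∀ k : ℕ, 2 * (k : ℤ) < s → h.coeff k ≤ h.coeff (k + 1) := fun k hk => Up_step hU hk
  have hdo : ∀ k : ℕ, s' < 2 * ((k : ℤ) + 1) → h.coeff (k + 1) ≤ h.coeff k :=
    fun k hk => Lo_step hL hk
  -- `m0` is the first index with `s ≤ 2 k`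
  set m0 : ℕ := ((s + 1) / 2).toNat with hm0
  have h1 : ∀ k < m0, h.coeff k ≤ h.coeff (k + 1) := by
    intro k hk
    apply hup
    omega
  have h2 : ∀ k, m0 < k → h.coeff (k + 1) ≤ h.coeff k := by
    intro k hk
    apply hdo
    rcases hs with hs | ⟨hs, r, hr⟩ <;> omega
  by_cases h3 : h.coeff m0 ≤ h.coeff (m0 + 1)
  · refine ⟨m0 + 1, fun k => ⟨fun hk => ?_, fun hk => h2 k (by omega)⟩⟩
    rcases Nat.lt_succ_iff_lt_or_eq.1 hk with hk | rfl
    · exact h1 k hk
    · exact h3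
  · refine ⟨m0, fun k => ⟨fun hk => h1 k hk, fun hk => ?_⟩⟩
    rcases Nat.lt_or_ge m0 k with hk' | hk'
    · exact h2 k hk'
    · have : k = m0 := le_antisymm hk' hk
      subst this
      exact (not_le.1 h3).le

end Pool.GT34
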