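import Pool.Agent.GT34.Defs

set_option autoImplicit false

/-!
# GT34/Rec: transport along embeddings, and reversal
-/

open Polynomial

namespace Pool.GT34

section Transport

variable {U V : Type} [PartialOrder U] [PartialOrder V]

lemma mins_map (e : U ↪o V) (S : Finset U) :
    mins (S.map e.toEmbedding) = (mins S).map e.toEmbedding := by
  classical
  ext z
  simp only [mem_mins, Finset.mem_map]
  constructor
  · rintro ⟨⟨y, hy, rfl⟩, h⟩
    refine ⟨y, ⟨hy, fun w hw hlt => ?_⟩, rfl⟩
    exact h _ ⟨w, hw, rfl⟩ (e.lt_iff_lt.2 hlt)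
  · rintro ⟨y, ⟨hy, h⟩, rfl⟩
    refine ⟨⟨y, hy, rfl⟩, ?_⟩
    rintro _ ⟨w, hw, rfl⟩ hlt
    exact h w hw (e.lt_iff_lt.1 hlt)

lemma del_map (e : U ↪o V) (S : Finset U) (y : U) :
    del (S.map e.toEmbedding) (e y) = (del S y).map e.toEmbedding := by
  classical
  ext z
  simp only [mem_del, Finset.mem_map]
  constructor
  · rintro ⟨h, w, hw, rfl⟩
    exact ⟨w, ⟨fun h' => h (by rw [h']; rfl), hw⟩, rfl⟩
  · rintro ⟨w, ⟨h, hw⟩, rfl⟩
    exact ⟨fun h' => h (e.injective h'), w, hw, rfl⟩

lemma Gf_map (e : U ↪o V) (D : V → V → Prop) :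
    ∀ (n : ℕ) (x : U) (S : Finset U),
      Gf D n (e x) (S.map e.toEmbedding) = Gf (fun a b => D (e a) (e b)) n x S := by
  intro n
  induction n with
  | zero => intro x S; rfl
  | succ n ih =>
    intro x S
    rw [Gf, Gf, mins_map, Finset.sum_map]
    refine Finset.sum_congr rfl fun y _ => ?_
    change st D (e x) (e y) * Gf D n (e y) (del (S.map e.toEmbedding) (e y)) = _
    rw [del_map, ih]
    rfl

theorem W_map (e : U ↪o V) (D : V → V → Prop) (S : Finset U) :
    W D (S.map e.toEmbedding) = W (fun a b => D (e a) (e b)) S := by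
  unfold W
  rw [mins_map, Finset.sum_map]
  refine Finset.sum_congr rfl fun y _ => ?_
  change Gf D (del (S.map e.toEmbedding) (e y)).card (e y) (del (S.map e.toEmbedding) (e y)) = _
  rw [del_map, Finset.card_map, Gf_map]
  rfl

/-- Restrict to the subposet `B`. -/
theorem W_sub (D : V → V → Prop) (B : Finset V) :
    W D B = W (fun a b : {x // x ∈ B} => D a b) Finset.univ := by
  have h := W_map (OrderEmbedding.subtype (fun x => x ∈ B)) D Finset.univ
  have e : (Finset.univ : Finset {x // x ∈ B}).map
      (OrderEmbedding.subtype (fun x => x ∈ B)).toEmbedding = B := by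
    ext z
    simp
  rw [e] at h
  exact h

end Transport

section Reverse

variable {V : Type} [PartialOrder V]

omit [PartialOrder V] in
lemma natDegree_st_le (D : V → V → Prop) (x y : V) : (st D x y).natDegree ≤ 1 := by
  unfold st
  split_ifs
  · exact natDegree_X_le
  · simp

lemma natDegree_Gf_le (D : V → V → Prop) :
    ∀ (n : ℕ) (x : V) (S : Finset V), (Gf D n x S).natDegree ≤ n := by
  intro n
  induction n with
  | zero => intro x S; simp [Gf]
  | succ n ih =>
    intro x S
    rw [Gf]
    refine natDegree_sum_le_of_forall_le _ _ fun y _ => ?_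
    refine natDegree_mul_le.trans ?_
    have h1 := natDegree_st_le D x y
    have h2 := ih y (del S y)
    omega

lemma reflect_sum {ι : Type*} (s : Finset ι) (n : ℕ) (g : ι → ℕ[X]) :
    reflect n (∑ i ∈ s, g i) = ∑ i ∈ s, reflect n (g i) := by
  classical
  induction s using Finset.induction_on with
  | empty => simp
  | insert a s ha ih => rw [Finset.sum_insert ha, Finset.sum_insert ha, reflect_add, ih]

omit [PartialOrder V] in
lemma reflect_st (D D' : V → V → Prop) {x y : V} (h : D x y ↔ ¬ D' x y) :
    reflect 1 (st D x y) = st D' x y := by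
  unfold st
  by_cases h1 : D' x y
  · rw [if_pos h1, if_neg (fun h2 => (h.1 h2) h1)]
    ext k
    rw [coeff_reflect, coeff_one, coeff_X]
    rcases k with _ | _ | k
    · simp
    · simp
    · rw [revAt_eq_self_of_lt (by omega)]
      simp
  · rw [if_neg h1, if_pos (h.2 h1)]
    ext k
    rw [coeff_reflect, coeff_one, coeff_X]
    rcases k with _ | _ | k
    · simp
    · simp
    · rw [revAt_eq_self_of_lt (by omega)]
      simp

lemma Gf_reflect (D D' : V → V → Prop) :
    ∀ (n : ℕ) (x : V) (S : Finset V), S.card = n → x ∉ S →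
      (∀ a b : V, (a ∈ S ∨ a = x) → b ∈ S → a ≠ b → (D a b ↔ ¬ D' a b)) →
      reflect n (Gf D n x S) = Gf D' n x S := by
  intro n
  induction n with
  | zero =>
    intro x S _ _ _
    ext k
    rw [coeff_reflect]
    simp only [Gf]
    rcases k with _ | k
    · simp
    · rw [revAt_eq_self_of_lt (by omega)]
  | succ n ih =>
    intro x S hn hx h
    rw [Gf, Gf, reflect_sum]
    refine Finset.sum_congr rfl fun y hy => ?_
    have hyS := (mem_mins.1 hy).1
    have hc := card_del hyS
    rw [show n + 1 = 1 + n by ring,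
      reflect_mul _ _ (natDegree_st_le D x y) (natDegree_Gf_le D n y (del S y)),
      reflect_st D D' (h x y (Or.inr rfl) hyS (fun e => hx (e ▸ hyS))), ih y (del S y) (by omega)
      (fun h' => (mem_del.1 h').1 rfl)]
    rintro a b ha hb hab
    rw [mem_del] at hb
    refine h a b (Or.inl ?_) hb.2 hab
    rcases ha with ha | ha
    · exact (mem_del.1 ha).2
    · exact ha ▸ hyS

/-- Complementing the descent relation reverses the polynomial. -/
theorem W_reflect (D D' : V → V → Prop) (S : Finset V)
    (h : ∀ a ∈ S, ∀ b ∈ S, a ≠ b → (D a b ↔ ¬ D' a b)) :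
    reflect (S.card - 1) (W D S) = W D' S := by
  unfold W
  rw [reflect_sum]
  refine Finset.sum_congr rfl fun y hy => ?_
  have hyS := (mem_mins.1 hy).1
  have hc := card_del hyS
  unfold G
  rw [show S.card - 1 = (del S y).card by omega]
  refine Gf_reflect D D' _ y _ rfl (fun h' => (mem_del.1 h').1 rfl) ?_
  rintro a b ha hb hab
  rw [mem_del] at hb
  refine h a ?_ b hb.2 hab
  rcases ha with ha | ha
  · exact (mem_del.1 ha).2
  · exact ha ▸ hyS

end Reverse

end Pool.GT34
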