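import Pool.Agent.GT34.Gauge

set_option autoImplicit false

/-!
# GT34/Top: adding a top element, and isolated points
-/

open Polynomial

namespace Pool.GT34

section Top

variable {V : Type} [PartialOrder V]

/-- The labelling `ω` extended by the label `c` at the top. -/
def wt (ω : V → ℤ) (c : ℤ) : WithTop V → ℤ
  | ⊤ => c
  | (x : V) => ω x

/-- The embedding of `V` in `WithTop V`. -/
def topE : V ↪o WithTop V := WithTop.coeOrderHom

open Classical in
/-- `S` with the top added. -/
noncomputable def topS (S : Finset V) : Finset (WithTop V) :=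
  insert ⊤ (S.map (topE (V := V)).toEmbedding)

lemma mem_topS {S : Finset V} {z : WithTop V} : z ∈ topS S ↔ z = ⊤ ∨ ∃ y ∈ S, (y : WithTop V) = z := by
  classical
  unfold topS
  rw [Finset.mem_insert, Finset.mem_map]
  rfl

lemma mins_topS {S : Finset V} (hS : S.Nonempty) :
    mins (topS S) = (mins S).map (topE (V := V)).toEmbedding := by
  classical
  ext z
  rw [mem_mins, Finset.mem_map]
  constructor
  · rintro ⟨h1, h2⟩
    rcases mem_topS.1 h1 with rfl | ⟨y, hy, rfl⟩
    · obtain ⟨w, hw⟩ := hS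
      exact absurd (WithTop.coe_lt_top w) (h2 w (mem_topS.2 (Or.inr ⟨w, hw, rfl⟩)))
    · refine ⟨y, mem_mins.2 ⟨hy, fun w hw hlt => ?_⟩, rfl⟩
      exact h2 w (mem_topS.2 (Or.inr ⟨w, hw, rfl⟩)) (WithTop.coe_lt_coe.2 hlt)
  · rintro ⟨y, hy, rfl⟩
    rw [mem_mins] at hy
    refine ⟨mem_topS.2 (Or.inr ⟨y, hy.1, rfl⟩), fun w hw hlt => ?_⟩
    rcases mem_topS.1 hw with rfl | ⟨w', hw', rfl⟩
    · exact absurd hlt (by simp)
    · exact hy.2 w' hw' (WithTop.coe_lt_coe.1 hlt)

lemma del_topS (S : Finset V) (y : V) : del (topS S) (y : WithTop V) = topS (del S y) := by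
  classical
  ext z
  rw [mem_del, mem_topS, mem_topS]
  constructor
  · rintro ⟨h1, rfl | ⟨w, hw, rfl⟩⟩
    · exact Or.inl rfl
    · exact Or.inr ⟨w, mem_del.2 ⟨fun h => h1 (by rw [h]), hw⟩, rfl⟩
  · rintro (rfl | ⟨w, hw, rfl⟩)
    · exact ⟨WithTop.top_ne_coe, Or.inl rfl⟩
    · rw [mem_del] at hw
      exact ⟨fun h => hw.1 (WithTop.coe_injective h), Or.inr ⟨w, hw.2, rfl⟩⟩

lemma card_topS (S : Finset V) : (topS S).card = S.card + 1 := by
  classical
  unfold topS
  rw [Finset.card_insert_of_notMem, Finset.card_map]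
  rw [Finset.mem_map]
  rintro ⟨y, _, hy⟩
  exact WithTop.coe_ne_top hy

lemma Gf_top (ω : V → ℤ) {c : ℤ} (hc : ∀ x, ω x < c) :
    ∀ (n : ℕ) (x : V) (S : Finset V), S.card = n →
      Gf (Dl (wt ω c)) (n + 1) (x : WithTop V) (topS S) = Gf (Dl ω) n x S := by
  classical
  intro n
  induction n with
  | zero =>
    intro x S hS
    rw [Finset.card_eq_zero] at hS
    subst hS
    have h1 : mins (topS (∅ : Finset V)) = {⊤} := by
      ext z
      rw [mem_mins, Finset.mem_singleton, mem_topS]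
      constructor
      · rintro ⟨h | ⟨y, hy, -⟩, -⟩
        · exact h
        · simp at hy
      · rintro rfl
        refine ⟨Or.inl rfl, fun w hw => ?_⟩
        rcases mem_topS.1 hw with rfl | ⟨y, hy, -⟩
        · exact lt_irrefl _
        · simp at hy
    change ∑ y ∈ mins (topS (∅ : Finset V)), _ = (1 : ℕ[X])
    rw [h1, Finset.sum_singleton]
    have h2 : st (Dl (wt ω c)) (x : WithTop V) ⊤ = 1 := by
      unfold st
      rw [if_neg]
      exact not_lt.2 (hc x).le
    rw [h2, one_mul]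
    rfl
  | succ n ih =>
    intro x S hS
    have hne : S.Nonempty := Finset.card_pos.1 (by omega)
    rw [Gf, Gf, mins_topS hne, Finset.sum_map]
    refine Finset.sum_congr rfl fun y hy => ?_
    have hyS := (mem_mins.1 hy).1
    have hcd := card_del hyS
    change st (Dl (wt ω c)) (x : WithTop V) (y : WithTop V) *
      Gf (Dl (wt ω c)) (n + 1) (y : WithTop V) (del (topS S) (y : WithTop V)) = _
    rw [del_topS, ih y (del S y) (by omega)]
    rfl

/-- Adding a top element does not change `W`. -/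
theorem W_top [Fintype V] [Nonempty V] (ω : V → ℤ) {c : ℤ} (hc : ∀ x, ω x < c) :
    W (Dl (wt ω c)) (Finset.univ : Finset (WithTop V)) = W (Dl ω) Finset.univ := by
  classical
  have h1 : (Finset.univ : Finset (WithTop V)) = topS (Finset.univ : Finset V) := by
    ext z
    simp only [Finset.mem_univ, true_iff, mem_topS, true_and]
    induction z using WithTop.recTopCoe with
    | top => exact Or.inl rfl
    | coe y => exact Or.inr ⟨y, rfl⟩
  rw [h1]
  unfold W
  rw [mins_topS Finset.univ_nonempty, Finset.sum_map]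
  refine Finset.sum_congr rfl fun y hy => ?_
  change G (Dl (wt ω c)) (y : WithTop V) (del (topS Finset.univ) (y : WithTop V)) = _
  rw [del_topS]
  unfold G
  rw [card_topS, Gf_top ω hc _ y _ rfl]

end Top

section Iso

variable {V : Type} [PartialOrder V]

/-- An isolated point multiplies the count by `N + 1`. -/
theorem Om_isolated (x : V) (hx : ∀ y, ¬ y < x ∧ ¬ x < y) (ω : V → ℤ) (N : ℕ) :
    Om ω N = (N + 1) * Om (fun y : {y : V // y ≠ x} => ω y) N := by
  classical
  have h1 : N + 1 = Nat.card {j : ℤ // 0 ≤ j ∧ j ≤ N} := by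
    have e : Nat.card {j : ℤ // 0 ≤ j ∧ j ≤ N} = Nat.card (Finset.Icc (0 : ℤ) N) :=
      Nat.card_congr (Equiv.subtypeEquivRight (by simp))
    rw [e, Nat.card_eq_finsetCard, Int.card_Icc]
    omega
  unfold Om
  rw [h1, ← Nat.card_prod]
  refine Nat.card_congr ?_
  refine
    { toFun := fun F => ⟨⟨F.1 x, F.2.1 x⟩, ⟨fun y => F.1 y, fun y => F.2.1 y,
        fun y z hyz => F.2.2 y z hyz⟩⟩
      invFun := fun q => ⟨fun z => if h : z = x then q.1.1 else q.2.1 ⟨z, h⟩, ?_, ?_⟩
      left_inv := ?_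
      right_inv := ?_ }
  · intro z
    by_cases h : z = x
    · simp only [h, dif_pos]; exact q.1.2
    · simp only [h, dif_neg, not_false_iff]; exact q.2.2.1 ⟨z, h⟩
  · intro y z hyz
    have hy : y ≠ x := fun h => (hx z).2 (h ▸ hyz)
    have hz : z ≠ x := fun h => (hx y).1 (h ▸ hyz)
    simp only [hy, hz, dif_neg, not_false_iff]
    exact q.2.2.2 ⟨y, hy⟩ ⟨z, hz⟩ hyz
  · rintro ⟨F, hF⟩
    simp only [Subtype.mk.injEq]
    funext z
    by_cases h : z = x
    · simp [h]
    · simp [h]
  · rintro ⟨⟨j, hj⟩, ⟨f, hf⟩⟩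
    simp only [Prod.mk.injEq, Subtype.mk.injEq, dif_pos, true_and]
    funext z
    simp [z.2]

end Iso

end Pool.GT34
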