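import Pool.Agent.GT34.Defs

set_option autoImplicit false

/-!
# GT34/Uniq: expansions in the basis `choose (N - k + p) p`
-/

open Polynomial

namespace Pool.GT34

lemma ev_add (p : ℕ) (g h : ℕ[X]) (N : ℕ) : ev p (g + h) N = ev p g N + ev p h N := by
  unfold ev
  rw [← Finset.sum_add_distrib]
  exact Finset.sum_congr rfl fun k _ => by rw [coeff_add, add_mul]

lemma ev_zero (p : ℕ) (N : ℕ) : ev p 0 N = 0 := by simp [ev]

lemma ev_sum {ι : Type*} (s : Finset ι) (p : ℕ) (g : ι → ℕ[X]) (N : ℕ) :
    ev p (∑ i ∈ s, g i) N = ∑ i ∈ s, ev p (g i) N := by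
  classical
  induction s using Finset.induction_on with
  | empty => simp [ev_zero]
  | insert a s ha ih => rw [Finset.sum_insert ha, Finset.sum_insert ha, ev_add, ih]

/-- The expansion determines the coefficients. -/
theorem ev_inj {p : ℕ} {g h : ℕ[X]} (e : ∀ N, ev p g N = ev p h N) : g = h := by
  ext n
  induction n using Nat.strong_induction_on with
  | _ n ih =>
    have h1 := e n
    unfold ev at h1
    rw [Finset.sum_range_succ, Finset.sum_range_succ] at h1
    have h2 : ∑ k ∈ Finset.range n, g.coeff k * Nat.choose (n - k + p) p =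
        ∑ k ∈ Finset.range n, h.coeff k * Nat.choose (n - k + p) p := by
      refine Finset.sum_congr rfl fun k hk => ?_
      rw [ih k (Finset.mem_range.1 hk)]
    rw [h2] at h1
    have h3 := Nat.add_left_cancel h1
    simpa using h3

lemma ev_X_pow_mul_of_lt {p m M : ℕ} (g : ℕ[X]) (h : M < m) : ev p (X ^ m * g) M = 0 := by
  unfold ev
  refine Finset.sum_eq_zero fun k hk => ?_
  rw [Finset.mem_range] at hk
  rw [coeff_X_pow_mul', if_neg (by omega), zero_mul]

lemma ev_X_pow_mul {p m : ℕ} (g : ℕ[X]) (N : ℕ) : ev p (X ^ m * g) (N + m) = ev p g N := by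
  unfold ev
  rw [show N + m + 1 = m + (N + 1) by ring, Finset.sum_range_add]
  have h1 : ∑ k ∈ Finset.range m, (X ^ m * g).coeff k * Nat.choose (N + m - k + p) p = 0 := by
    refine Finset.sum_eq_zero fun k hk => ?_
    rw [Finset.mem_range] at hk
    rw [coeff_X_pow_mul', if_neg (by omega), zero_mul]
  rw [h1, zero_add]
  refine Finset.sum_congr rfl fun k hk => ?_
  rw [Finset.mem_range] at hk
  rw [show m + k = k + m by ring, coeff_X_pow_mul, show N + m - (k + m) = N - k by omega]

/-- Hockey stick. -/
lemma hockey (p n : ℕ) :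
    ∑ j ∈ Finset.range (n + 1), Nat.choose (j + p) p = Nat.choose (n + (p + 1)) (p + 1) := by
  induction n with
  | zero => simp
  | succ n ih =>
    rw [Finset.sum_range_succ, ih, show n + 1 + (p + 1) = (n + (p + 1)) + 1 by ring,
      Nat.choose_succ_succ, add_comm, show n + 1 + p = n + (p + 1) by ring]

/-- Summation raises `p` by one. -/
theorem ev_sum_range (p : ℕ) (g : ℕ[X]) (N : ℕ) :
    ∑ j ∈ Finset.range (N + 1), ev p g j = ev (p + 1) g N := by
  induction N with
  | zero => simp [ev]
  | succ N ih =>
    rw [Finset.sum_range_succ, ih]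
    unfold ev
    rw [Finset.sum_range_succ (fun k => g.coeff k * Nat.choose (N + 1 - k + p) p),
      Finset.sum_range_succ (fun k => g.coeff k * Nat.choose (N + 1 - k + (p + 1)) (p + 1)),
      ← add_assoc, ← Finset.sum_add_distrib]
    congr 1
    · refine Finset.sum_congr rfl fun k hk => ?_
      rw [Finset.mem_range] at hk
      rw [← mul_add]
      congr 1
      rw [show N + 1 - k + (p + 1) = (N - k + (p + 1)) + 1 by omega, Nat.choose_succ_succ,
        add_comm, show N + 1 - k + p = N - k + (p + 1) by omega]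
    · simp

end Pool.GT34
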