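import Pool.Agent.GT34.Poly
import Pool.Agent.GT34.Uniq

set_option autoImplicit false

/-!
# GT34/Tp: multiplication of the counting function by `N + 1`
-/

open Polynomial

namespace Pool.GT34

lemma gen_mem_Lo {s : ℤ} {i l : ℕ} (h : 2 * (i : ℤ) + l ≤ s) : (X ^ i * geo l : ℕ[X]) ∈ Lo s :=
  AddSubmonoid.subset_closure ⟨i, l, h, rfl⟩

/-- The image of the monomial `X ^ k`. -/
noncomputable def Tmon (p k : ℕ) : ℕ[X] := (k + 1) • X ^ k + (p - k) • X ^ (k + 1)

lemma ev_smul (p c : ℕ) (g : ℕ[X]) (N : ℕ) : ev p (c • g) N = c * ev p g N := by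
  unfold ev
  rw [Finset.mul_sum]
  refine Finset.sum_congr rfl fun k _ => ?_
  rw [coeff_smul, smul_eq_mul, mul_assoc]

lemma ev_X_pow (p k N : ℕ) : ev p (X ^ k) N = if k ≤ N then Nat.choose (N - k + p) p else 0 := by
  unfold ev
  simp only [coeff_X_pow, ite_mul, one_mul, zero_mul]
  rw [Finset.sum_ite_eq']
  simp only [Finset.mem_range, Nat.lt_succ_iff]

/-- The basic identity `(N + 1) C(N - k + p, p) = (k + 1) C(N - k + p + 1, p + 1) +
(p - k) C(N - k + p, p + 1)`. -/
lemma choose_identity {p k : ℕ} (hk : k ≤ p) (n : ℕ) :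
    (n + k + 1) * Nat.choose (n + p) p =
      (k + 1) * Nat.choose (n + (p + 1)) (p + 1) + (p - k) * Nat.choose (n + p) (p + 1) := by
  -- `(p + 1) C(n + p + 1, p + 1) = (n + p + 1) C(n + p, p)`, `(p + 1) C(n + p, p + 1) = n C(n + p, p)`
  have h1 : (n + p + 1) * Nat.choose (n + p) p = Nat.choose (n + (p + 1)) (p + 1) * (p + 1) := by
    have := Nat.add_one_mul_choose_eq (n + p) p
    rw [show n + (p + 1) = n + p + 1 by ring]
    exact this
  have h2 : Nat.choose (n + p) (p + 1) * (p + 1) = Nat.choose (n + p) p * n := by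
    have := Nat.choose_succ_right_eq (n + p) p
    rwa [show n + p - p = n by omega] at this
  obtain ⟨d, rfl⟩ := Nat.exists_eq_add_of_le hk
  have h3 : 0 < k + d + 1 := by omega
  apply Nat.eq_of_mul_eq_mul_right h3
  rw [show k + d - k = d by omega]
  calc (n + k + 1) * Nat.choose (n + (k + d)) (k + d) * (k + d + 1)
      = (k + 1) * ((n + (k + d) + 1) * Nat.choose (n + (k + d)) (k + d)) +
          d * (Nat.choose (n + (k + d)) (k + d) * n) := by ring
    _ = (k + 1) * (Nat.choose (n + (k + d + 1)) (k + d + 1) * (k + d + 1)) +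
          d * (Nat.choose (n + (k + d)) (k + d + 1) * (k + d + 1)) := by rw [h1, h2]
    _ = _ := by ring

lemma ev_Tmon {p k : ℕ} (hk : k ≤ p) (N : ℕ) :
    ev (p + 1) (Tmon p k) N = (N + 1) * ev p (X ^ k) N := by
  unfold Tmon
  rw [ev_add, ev_smul, ev_smul, ev_X_pow, ev_X_pow, ev_X_pow]
  by_cases h1 : k ≤ N
  · rw [if_pos h1, if_pos h1]
    obtain ⟨n, rfl⟩ := Nat.exists_eq_add_of_le h1
    have h2 := choose_identity hk n
    rw [show k + n - k = n by omega, show (k + n + 1) = n + k + 1 by ring, h2]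
    congr 1
    rcases n with _ | n
    · rw [if_neg (by omega), zero_add, Nat.choose_eq_zero_of_lt (by omega)]
    · rw [if_pos (by omega), show k + (n + 1) - (k + 1) = n by omega,
        show n + (p + 1) = n + 1 + p by ring]
  · rw [if_neg h1, if_neg h1, if_neg (by omega)]
    simp

/-- `T_p` of an interval. -/
lemma Tmon_interval (p i : ℕ) : ∀ l : ℕ, 2 * i + l + 1 ≤ p →
    ∑ k ∈ Finset.range (l + 1), Tmon p (i + k) =
      (i + 1) • (X ^ i * geo (l + 1)) + (p - 1 - (2 * i + l)) • (X ^ (i + 1) * geo l) +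
        (if l = 0 then 0 else (i + l + 2) • (X ^ (i + 1) * geo (l - 1))) := by
  intro l hl
  ext k
  rw [finsetSum_coeff]
  simp only [Tmon, coeff_add, coeff_smul, coeff_X_pow, smul_eq_mul, coeff_gen]
  rw [Finset.sum_add_distrib]
  have h1 : ∑ x ∈ Finset.range (l + 1), (i + x + 1) * (if k = i + x then 1 else 0) =
      if i ≤ k ∧ k ≤ i + l then k + 1 else 0 := by
    by_cases h : i ≤ k ∧ k ≤ i + l
    · rw [if_pos h, Finset.sum_eq_single (k - i)]
      · rw [if_pos (by omega)]; omega
      · intro b _ hb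
        rw [if_neg (by omega), mul_zero]
      · intro h2
        exact absurd (Finset.mem_range.2 (by omega)) h2
    · rw [if_neg h]
      refine Finset.sum_eq_zero fun x hx => ?_
      rw [Finset.mem_range] at hx
      rw [if_neg (by omega), mul_zero]
  have h2 : ∑ x ∈ Finset.range (l + 1), (p - (i + x)) * (if k = i + x + 1 then 1 else 0) =
      if i + 1 ≤ k ∧ k ≤ i + l + 1 then p + 1 - k else 0 := by
    by_cases h : i + 1 ≤ k ∧ k ≤ i + l + 1
    · rw [if_pos h, Finset.sum_eq_single (k - i - 1)]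
      · rw [if_pos (by omega)]; omega
      · intro b _ hb
        rw [if_neg (by omega), mul_zero]
      · intro h2
        exact absurd (Finset.mem_range.2 (by omega)) h2
    · rw [if_neg h]
      refine Finset.sum_eq_zero fun x hx => ?_
      rw [Finset.mem_range] at hx
      rw [if_neg (by omega), mul_zero]
  rw [h1, h2]
  rcases l with _ | l
  · simp only [if_true, coeff_zero, add_zero]
    split_ifs <;> omega
  · rw [if_neg (show ¬ (l + 1 = 0) by omega), coeff_smul, coeff_gen, smul_eq_mul]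
    split_ifs <;> omega

/-- `T_p` maps `Lo (p - 1)` to `Lo p`. -/
theorem exists_Tp {p : ℕ} {h : ℕ[X]} (hh : h ∈ Lo ((p : ℤ) - 1)) :
    ∃ g ∈ Lo (p : ℤ), ∀ N, ev (p + 1) g N = (N + 1) * ev p h N := by
  induction hh using AddSubmonoid.closure_induction with
  | mem x hx =>
    obtain ⟨i, l, h1, rfl⟩ := hx
    refine ⟨∑ k ∈ Finset.range (l + 1), Tmon p (i + k), ?_, ?_⟩
    · rw [Tmon_interval p i l (by omega)]
      refine add_mem (add_mem ?_ ?_) ?_
      · exact nsmul_mem (gen_mem_Lo (by push_cast; omega)) _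
      · by_cases h2 : 2 * i + l + 1 = p
        · rw [show p - 1 - (2 * i + l) = 0 by omega, zero_smul]
          exact zero_mem _
        · exact nsmul_mem (gen_mem_Lo (by push_cast; omega)) _
      · split_ifs with h2
        · exact zero_mem _
        · exact nsmul_mem (gen_mem_Lo (by push_cast; omega)) _
    · intro N
      have e : (X ^ i * geo l : ℕ[X]) = ∑ k ∈ Finset.range (l + 1), X ^ (i + k) := by
        unfold geo
        rw [Finset.mul_sum]
        refine Finset.sum_congr rfl fun k _ => ?_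
        rw [pow_add]
      rw [e, ev_sum, ev_sum, Finset.mul_sum]
      refine Finset.sum_congr rfl fun k hk => ?_
      rw [Finset.mem_range] at hk
      exact ev_Tmon (by omega) N
  | zero => exact ⟨0, zero_mem _, fun N => by rw [ev_zero, ev_zero, mul_zero]⟩
  | add x y _ _ hx hy =>
    obtain ⟨g1, hg1, e1⟩ := hx
    obtain ⟨g2, hg2, e2⟩ := hy
    exact ⟨g1 + g2, add_mem hg1 hg2, fun N => by rw [ev_add, ev_add, e1, e2, mul_add]⟩

lemma gen_mem_Up {s : ℤ} {i l : ℕ} (h : s ≤ 2 * (i : ℤ) + l) : (X ^ i * geo l : ℕ[X]) ∈ Up s :=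
  AddSubmonoid.subset_closure ⟨i, l, h, rfl⟩

/-- `T_p` of an interval with centre at least `(p - 1) / 2`. -/
lemma Tmon_interval' (p i : ℕ) : ∀ l : ℕ, i + l ≤ p → p ≤ 2 * i + l + 1 →
    ∑ k ∈ Finset.range (l + 1), Tmon p (i + k) =
      (p - (i + l)) • (X ^ i * geo (l + 1)) + (2 * i + l + 1 - p) • (X ^ i * geo l) +
        (if l = 0 then 0 else (p + 1 - i) • (X ^ (i + 1) * geo (l - 1))) := by
  intro l hl hl'
  ext k
  rw [finsetSum_coeff]
  simp only [Tmon, coeff_add, coeff_smul, coeff_X_pow, smul_eq_mul, coeff_gen]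
  rw [Finset.sum_add_distrib]
  have h1 : ∑ x ∈ Finset.range (l + 1), (i + x + 1) * (if k = i + x then 1 else 0) =
      if i ≤ k ∧ k ≤ i + l then k + 1 else 0 := by
    by_cases h : i ≤ k ∧ k ≤ i + l
    · rw [if_pos h, Finset.sum_eq_single (k - i)]
      · rw [if_pos (by omega)]; omega
      · intro b _ hb
        rw [if_neg (by omega), mul_zero]
      · intro h2
        exact absurd (Finset.mem_range.2 (by omega)) h2
    · rw [if_neg h]
      refine Finset.sum_eq_zero fun x hx => ?_
      rw [Finset.mem_range] at hx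
      rw [if_neg (by omega), mul_zero]
  have h2 : ∑ x ∈ Finset.range (l + 1), (p - (i + x)) * (if k = i + x + 1 then 1 else 0) =
      if i + 1 ≤ k ∧ k ≤ i + l + 1 then p + 1 - k else 0 := by
    by_cases h : i + 1 ≤ k ∧ k ≤ i + l + 1
    · rw [if_pos h, Finset.sum_eq_single (k - i - 1)]
      · rw [if_pos (by omega)]; omega
      · intro b _ hb
        rw [if_neg (by omega), mul_zero]
      · intro h2
        exact absurd (Finset.mem_range.2 (by omega)) h2
    · rw [if_neg h]
      refine Finset.sum_eq_zero fun x hx => ?_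
      rw [Finset.mem_range] at hx
      rw [if_neg (by omega), mul_zero]
  rw [h1, h2]
  rcases l with _ | l
  · simp only [if_true, coeff_zero, add_zero]
    split_ifs <;> omega
  · rw [if_neg (show ¬ (l + 1 = 0) by omega), coeff_smul, coeff_gen, smul_eq_mul]
    split_ifs <;> omega

/-- Elements of `Up s` of degree at most `d` are sums of intervals inside `[0, d]`. -/
lemma mem_Up_bdd {s : ℤ} {d : ℕ} {h : ℕ[X]} (hh : h ∈ Up s) :
    (∀ k, d < k → h.coeff k = 0) →
    h ∈ AddSubmonoid.closure {g : ℕ[X] | ∃ i l : ℕ, s ≤ 2 * (i : ℤ) + l ∧ i + l ≤ d ∧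
      g = X ^ i * geo l} := by
  induction hh using AddSubmonoid.closure_induction with
  | mem x hx =>
    obtain ⟨i, l, h1, rfl⟩ := hx
    intro h0
    refine AddSubmonoid.subset_closure ⟨i, l, h1, ?_, rfl⟩
    by_contra hlt
    have := h0 (i + l) (by omega)
    rw [coeff_gen, if_pos ⟨by omega, le_rfl⟩] at this
    exact one_ne_zero this
  | zero => exact fun _ => zero_mem _
  | add x y _ _ hx hy =>
    intro h0
    have h1 : ∀ k, d < k → x.coeff k = 0 ∧ y.coeff k = 0 := by
      intro k hk
      have := h0 k hk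
      rw [coeff_add] at this
      omega
    exact add_mem (hx fun k hk => (h1 k hk).1) (hy fun k hk => (h1 k hk).2)

/-- `T_p` maps `Up s` to `Up (s + 1)` for `s ≤ p - 1`, on polynomials of degree at most `p`. -/
theorem exists_Tp_Up {p : ℕ} {s : ℤ} (hs : s ≤ (p : ℤ) - 1) {h : ℕ[X]} (hh : h ∈ Up s)
    (hd : ∀ k, p < k → h.coeff k = 0) :
    ∃ g ∈ Up (s + 1), ∀ N, ev (p + 1) g N = (N + 1) * ev p h N := by
  have hh' := mem_Up_bdd hh hd
  clear hh hd
  induction hh' using AddSubmonoid.closure_induction with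
  | mem x hx =>
    obtain ⟨i, l, h1, h2, rfl⟩ := hx
    refine ⟨∑ k ∈ Finset.range (l + 1), Tmon p (i + k), ?_, ?_⟩
    · rcases le_or_gt (2 * i + l + 1) p with h3 | h3
      · rw [Tmon_interval p i l h3]
        refine add_mem (add_mem ?_ ?_) ?_
        · exact nsmul_mem (gen_mem_Up (by push_cast; omega)) _
        · exact nsmul_mem (gen_mem_Up (by push_cast; omega)) _
        · split_ifs with h4
          · exact zero_mem _
          · exact nsmul_mem (gen_mem_Up (by push_cast; omega)) _
      · rw [Tmon_interval' p i l h2 h3.le]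
        refine add_mem (add_mem ?_ ?_) ?_
        · exact nsmul_mem (gen_mem_Up (by push_cast; omega)) _
        · exact nsmul_mem (gen_mem_Up (by push_cast; omega)) _
        · split_ifs with h4
          · exact zero_mem _
          · exact nsmul_mem (gen_mem_Up (by push_cast; omega)) _
    · intro N
      have e : (X ^ i * geo l : ℕ[X]) = ∑ k ∈ Finset.range (l + 1), X ^ (i + k) := by
        unfold geo
        rw [Finset.mul_sum]
        refine Finset.sum_congr rfl fun k _ => ?_
        rw [pow_add]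
      rw [e, ev_sum, ev_sum, Finset.mul_sum]
      refine Finset.sum_congr rfl fun k hk => ?_
      rw [Finset.mem_range] at hk
      exact ev_Tmon (by omega) N
  | zero => exact ⟨0, zero_mem _, fun N => by rw [ev_zero, ev_zero, mul_zero]⟩
  | add x y _ _ hx hy =>
    obtain ⟨g1, hg1, e1⟩ := hx
    obtain ⟨g2, hg2, e2⟩ := hy
    exact ⟨g1 + g2, add_mem hg1 hg2, fun N => by rw [ev_add, ev_add, e1, e2, mul_add]⟩

end Pool.GT34
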