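import Pool.Agent.GT34.Cone
import Pool.Agent.GT34.Fund
import Pool.Agent.GT34.Rec
import Pool.Agent.GT34.Top
import Pool.Agent.GT34.Tp

set_option autoImplicit false

/-!
# GT34/SNat: natural labellings are in `Lo (n - 1)`, dual natural ones in `Up (n - 1)`
-/

open Polynomial

namespace Pool.GT34

section General

variable {V : Type} [Fintype V] [PartialOrder V]

theorem W_gauge [Nonempty V] (ω ω' : V → ℤ) (hω : ∀ x y, x < y → ω x < ω y)
    (hi : Function.Injective ω) (hi' : Function.Injective ω') (h : V → ℕ) (m : ℕ)
    (hcov : ∀ x y, x ⋖ y → (h y = h x ∧ ω' x < ω' y) ∨ (h y = h x + 1 ∧ ω' y < ω' x))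
    (hmin : ∀ x, IsMin x → h x = 0) (hmax : ∀ x, IsMax x → h x = m) :
    W (Dl ω') Finset.univ = X ^ m * W (Dl ω) (Finset.univ : Finset V) := by
  apply ev_inj (p := Fintype.card V)
  intro M
  rw [← Om_eq_ev ω' hi' M, Om_gauge ω ω' hω h m hcov hmin hmax]
  by_cases hM : M < m
  · rw [ev_X_pow_mul_of_lt _ hM, Om_neg]
    omega
  · obtain ⟨N, rfl⟩ := Nat.exists_eq_add_of_le (not_lt.1 hM)
    rw [show m + N = N + m by ring, ev_X_pow_mul, ← Om_eq_ev ω hi N]
    congr 1
    push_cast
    ring

theorem W_isolated (x : V) (hx : ∀ y, ¬ y < x ∧ ¬ x < y) (ω : V → ℤ)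
    (hi : Function.Injective ω) [Fintype {y : V // y ≠ x}] [Nonempty {y : V // y ≠ x}]
    (hW : W (Dl (fun y : {y : V // y ≠ x} => ω y)) Finset.univ ∈
      Lo ((Fintype.card {y : V // y ≠ x} : ℤ) - 1)) :
    W (Dl ω) (Finset.univ : Finset V) ∈ Lo ((Fintype.card V : ℤ) - 1) := by
  classical
  have : Nonempty V := ⟨x⟩
  obtain ⟨g, hg, e⟩ := exists_Tp hW
  have hi' : Function.Injective (fun y : {y : V // y ≠ x} => ω y) :=
    hi.comp Subtype.val_injective
  have hc : Fintype.card V = Fintype.card {y : V // y ≠ x} + 1 := by
    have h2 : 0 < Fintype.card V := Fintype.card_pos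
    have h3 : Fintype.card {y : V // y ≠ x} = Fintype.card V - 1 := by
      rw [Fintype.card_subtype, Finset.filter_ne' Finset.univ x, Finset.card_erase_of_mem
        (Finset.mem_univ x), Finset.card_univ]
    omega
  have h1 : W (Dl ω) (Finset.univ : Finset V) = g := by
    apply ev_inj (p := Fintype.card V)
    intro N
    rw [← Om_eq_ev ω hi N, Om_isolated x hx, hc, e, Om_eq_ev _ hi' N]
  rw [h1, hc]
  push_cast
  rwa [add_sub_cancel_right]

omit [PartialOrder V] in
/-- A bound for the spread of the labels. -/
lemma exists_spread (ω : V → ℤ) : ∃ C : ℤ, ∀ x y, ω x < ω y + C := by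
  classical
  rcases isEmpty_or_nonempty V with h | h
  · exact ⟨0, fun x => (h.false x).elim⟩
  · obtain ⟨a, ha⟩ := Finite.exists_max ω
    obtain ⟨b, hb⟩ := Finite.exists_min ω
    refine ⟨ω a - ω b + 1, fun x y => ?_⟩
    have := ha x
    have := hb y
    omega

end General

theorem snat : ∀ (n : ℕ) (V : Type) [Fintype V] [PartialOrder V] [Nonempty V],
    Fintype.card V = n → ∀ ω : V → ℤ, Function.Injective ω → (∀ x y, x < y → ω x < ω y) →
    W (Dl ω) (Finset.univ : Finset V) ∈ Lo ((n : ℤ) - 1) := by
  classical
  intro n
  induction n using Nat.strong_induction_on with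
  | _ n ih =>
    intro V _ _ _ hn ω hi hω
    by_cases h1 : n = 1
    · -- one point
      subst h1
      obtain ⟨x, hx⟩ := Fintype.card_eq_one_iff.1 hn
      have e1 : mins (Finset.univ : Finset V) = {x} := by
        ext z
        rw [mem_mins, Finset.mem_singleton]
        constructor
        · exact fun _ => hx z
        · rintro rfl
          exact ⟨Finset.mem_univ _, fun y _ => by rw [hx y]; exact lt_irrefl _⟩
      have e2 : del (Finset.univ : Finset V) x = ∅ := by
        ext z
        rw [mem_del]
        simp [hx z]
      rw [W, e1, Finset.sum_singleton, e2, G_empty]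
      simpa using one_mem_Lo
    have hn0 : 0 < Fintype.card V := Fintype.card_pos
    by_cases hiso : ∃ x : V, ∀ y, ¬ y < x ∧ ¬ x < y
    · -- an isolated point
      obtain ⟨x, hx⟩ := hiso
      have hc : Fintype.card {y : V // y ≠ x} = Fintype.card V - 1 := by
        rw [Fintype.card_subtype, Finset.filter_ne' Finset.univ x, Finset.card_erase_of_mem
          (Finset.mem_univ x), Finset.card_univ]
      have : Nonempty {y : V // y ≠ x} := by
        rw [← Fintype.card_pos_iff, hc]
        omega
      have h2 := ih (Fintype.card {y : V // y ≠ x}) (by omega) {y : V // y ≠ x} rfl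
        (fun y => ω y) (hi.comp Subtype.val_injective) (fun y z hyz => hω y z hyz)
      have h3 := W_isolated x hx ω hi h2
      rwa [hn] at h3
    · -- no isolated point
      push Not at hiso
      obtain ⟨C, hC⟩ := exists_spread ω
      have hminmax : ∀ x : V, IsMin x → ¬ IsMax x := by
        intro x hx hx'
        obtain ⟨y, hy⟩ := hiso x
        by_cases h2 : y < x
        · exact hx.not_lt h2
        · exact hx'.not_lt (hy h2)
      set cl : V → Bool := fun x => !decide (IsMax x) with hcl
      set ω' : V → ℤ := fun x => if IsMax x then ω x else ω x + C with hω'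
      have hclt : ∀ x, cl x = true ↔ ¬ IsMax x := by intro x; simp [hcl]
      have hclf : ∀ x, cl x = false ↔ IsMax x := by intro x; simp [hcl]
      have hi' : Function.Injective ω' := by
        intro x y hxy
        simp only [hω'] at hxy
        have h2 := hC x y
        have h3 := hC y x
        split_ifs at hxy
        · exact hi hxy
        · omega
        · omega
        · exact hi (by omega)
      have hsame : ∀ x y, cl x = cl y → x < y → ω' x < ω' y := by
        intro x y hxy hlt
        have h2 := hω x y hlt
        simp only [hω']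
        by_cases hx : IsMax x
        · have hy := (hclf y).1 (hxy ▸ (hclf x).2 hx)
          rw [if_pos hx, if_pos hy]; exact h2
        · have hy := (hclt y).1 (hxy ▸ (hclt x).2 hx)
          rw [if_neg hx, if_neg hy]; omega
      have hD : ∀ x y, cl x ≠ cl y → (Dl ω' x y ↔ cl x = true) := by
        intro x y hxy
        unfold Dl
        have h2 := hC x y
        have h3 := hC y x
        rw [hclt]
        simp only [hω']
        by_cases hx : IsMax x
        · have hy : ¬ IsMax y := fun hy => hxy (by rw [(hclf x).2 hx, (hclf y).2 hy])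
          rw [if_pos hx, if_neg hy]
          constructor
          · intro h4; omega
          · intro h4; exact absurd hx h4
        · have hy : IsMax y := by
            by_contra hy
            exact hxy (by rw [(hclt x).2 hx, (hclt y).2 hy])
          rw [if_neg hx, if_pos hy]
          exact ⟨fun _ => hx, fun _ => h3⟩
      have hblocks : BlocksLo (Dl ω') cl := by
        intro B hB c hc
        rw [W_sub]
        have hBn : B.card < n := by
          rw [← hn, ← Finset.card_univ]
          refine Finset.card_lt_card (Finset.ssubset_univ_iff.2 ?_)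
          rintro rfl
          obtain ⟨x0⟩ := (inferInstance : Nonempty V)
          obtain ⟨y, -, hy⟩ := exists_isMin_le x0
          obtain ⟨z, -, hz⟩ := exists_le_isMax x0
          have h2 := hc y (Finset.mem_univ y)
          have h3 := hc z (Finset.mem_univ z)
          rw [(hclt y).2 (hminmax y hy)] at h2
          rw [(hclf z).2 hz] at h3
          rw [← h3] at h2
          exact absurd h2 (by simp)
        have : Nonempty {x // x ∈ B} := ⟨⟨hB.choose, hB.choose_spec⟩⟩
        have hcard : Fintype.card {x // x ∈ B} = B.card := Fintype.card_coe B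
        have h4 := ih B.card hBn {x // x ∈ B} hcard (fun x => ω' x)
          (hi'.comp Subtype.val_injective) (fun x y hxy =>
            hsame x y (by rw [hc x x.2, hc y y.2]) hxy)
        exact h4
      have h5 := cone_Lo hD hblocks Finset.univ
      have h6 := W_gauge ω ω' hω hi hi' (fun x => if IsMax x then 1 else 0) 1 (by
        intro x y hxy
        have hx : ¬ IsMax x := fun h => h.not_lt hxy.lt
        have h7 := hω x y hxy.lt
        by_cases hy : IsMax y
        · right
          simp only [hω', if_neg hx, if_pos hy]
          exact ⟨trivial, hC y x⟩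
        · left
          simp only [hω', if_neg hx, if_neg hy]
          exact ⟨trivial, by omega⟩) (fun x hx => if_neg (hminmax x hx)) (fun x hx => if_pos hx)
      rw [h6] at h5
      have h8 := Lo_div h5
      rw [Finset.card_univ, hn] at h8
      refine Lo_mono ?_ h8
      push_cast
      omega

theorem santi (V : Type) [Fintype V] [PartialOrder V] [Nonempty V] (ω : V → ℤ)
    (hi : Function.Injective ω) (hω : ∀ x y, x < y → ω y < ω x) :
    W (Dl ω) (Finset.univ : Finset V) ∈ Up ((Fintype.card V : ℤ) - 1) := by
  classical
  have h0 : 0 < Fintype.card V := Fintype.card_pos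
  have h1 := snat (Fintype.card V) V rfl (fun x => - ω x) (fun x y h => hi (neg_injective h))
    (fun x y hxy => neg_lt_neg (hω x y hxy))
  have h2 := W_reflect (Dl (fun x => - ω x)) (Dl ω) (Finset.univ : Finset V) (by
    intro a _ b _ hab
    have hne : ω a ≠ ω b := fun h => hab (hi h)
    change - ω b < - ω a ↔ ¬ ω b < ω a
    constructor
    · intro h; omega
    · intro h; omega)
  rw [← h2, Finset.card_univ]
  have e : ((Fintype.card V : ℤ) - 1) = ((Fintype.card V - 1 : ℕ) : ℤ) := by omega
  rw [e] at h1 ⊢
  exact reflect_mem_Up h1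

end Pool.GT34
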